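import Mathlib
import Pool.Agent.Helper52.PS.Defs

set_option autoImplicit false

namespace Pool.Agent.Helper52.PS

theorem pat_zero (q : ℕ) : pat q 0 = 1 := rfl

theorem pat_succ (q k : ℕ) : pat q (k + 1) = pat q k ||| (pat q k <<< (q * 2 ^ k)) := rfl

theorem pat_testBit (q : ℕ) (hq : 0 < q) (K i : ℕ) :
    (pat q K).testBit i = true ↔ (q ∣ i ∧ i < q * 2 ^ K) := by
  induction K generalizing i with
  | zero =>
    rw [pat_zero, Nat.testBit_one_eq_true_iff_self_eq_zero]
    constructor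
    · rintro rfl
      exact ⟨dvd_zero _, by simpa using hq⟩
    · rintro ⟨⟨c, rfl⟩, h2⟩
      have : c < 1 := by
        have := h2
        rw [pow_zero] at this
        exact lt_of_mul_lt_mul_left this (Nat.zero_le q)
      have : c = 0 := by omega
      simp [this]
  | succ k ih =>
    rw [pat_succ, Nat.testBit_or, Nat.testBit_shiftLeft, Bool.or_eq_true, Bool.and_eq_true,
      decide_eq_true_eq, ih, ih]
    have e : q * 2 ^ (k + 1) = q * 2 ^ k + q * 2 ^ k := by ring
    rw [e]
    constructor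
    · rintro (⟨h1, h2⟩ | ⟨h1, h2, h3⟩)
      · exact ⟨h1, by omega⟩
      · refine ⟨?_, by omega⟩
        have : i = (i - q * 2 ^ k) + q * 2 ^ k := by omega
        rw [this]
        exact dvd_add h2 (dvd_mul_right _ _)
    · rintro ⟨h1, h2⟩
      by_cases h : i < q * 2 ^ k
      · exact Or.inl ⟨h1, h⟩
      · right
        refine ⟨by omega, ?_, by omega⟩
        exact Nat.dvd_sub h1 (dvd_mul_right _ _)

theorem mask_def (v K q : ℕ) : mask v K q = (pat q K) <<< ((v * (q / 2)) % q) := rfl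

theorem mask_testBit (v K q L i : ℕ) (hq : 1 < q) (hodd : q % 2 = 1) (hL : L ≤ q * 2 ^ K)
    (hi : i < L) : (mask v K q).testBit i = true ↔ q ∣ v + 2 * i := by
  have hq0 : 0 < q := by omega
  rw [mask_def, Nat.testBit_shiftLeft, Bool.and_eq_true, decide_eq_true_eq, pat_testBit q hq0]
  set i0 := (v * (q / 2)) % q with hi0
  have hlt : i0 < q := Nat.mod_lt _ hq0
  have hmod : i0 ≡ v * (q / 2) [MOD q] := Nat.mod_modEq _ _
  have h2 : q / 2 * 2 + 1 = q := by omega
  -- `v + 2 i0 ≡ 0`
  have h0 : q ∣ v + 2 * i0 := by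
    have h3 : v + 2 * i0 ≡ v + 2 * (v * (q / 2)) [MOD q] := (hmod.mul_left 2).add_left v
    have h4 : v + 2 * (v * (q / 2)) = v * q := by
      calc v + 2 * (v * (q / 2)) = v * (q / 2 * 2 + 1) := by ring
        _ = v * q := by rw [h2]
    rw [h4] at h3
    exact (Nat.modEq_zero_iff_dvd).1 (h3.trans ((Nat.modEq_zero_iff_dvd).2 (dvd_mul_left _ _)))
  have hcop : Nat.Coprime q 2 := by
    rw [Nat.coprime_two_right, Nat.odd_iff]; exact hodd
  constructor
  · rintro ⟨h1, h3, _⟩
    have : v + 2 * i = (v + 2 * i0) + 2 * (i - i0) := by omega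
    rw [this]
    exact dvd_add h0 (dvd_mul_of_dvd_right h3 _)
  · intro h
    have key : i0 ≤ i ∧ q ∣ i - i0 := by
      rcases Nat.lt_or_ge i i0 with hlt2 | hge
      · exfalso
        have h5 : q ∣ 2 * (i0 - i) := by
          have : 2 * (i0 - i) = (v + 2 * i0) - (v + 2 * i) := by omega
          rw [this]
          exact Nat.dvd_sub h0 h
        have h6 : q ∣ i0 - i := (Nat.Coprime.dvd_of_dvd_mul_left hcop h5)
        have := Nat.le_of_dvd (by omega) h6
        omega
      · refine ⟨hge, ?_⟩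
        have h5 : q ∣ 2 * (i - i0) := by
          have : 2 * (i - i0) = (v + 2 * i) - (v + 2 * i0) := by omega
          rw [this]
          exact Nat.dvd_sub h h0
        exact Nat.Coprime.dvd_of_dvd_mul_left hcop h5
    exact ⟨key.1, key.2, by omega⟩

theorem foldMask_nil (v K z : ℕ) : foldMask v K [] z = z := rfl

theorem foldMask_cons (v K q z : ℕ) (l : List ℕ) :
    foldMask v K (q :: l) z = foldMask v K l (z ||| mask v K q) := by
  show Bool.rec (motive := fun _ => ℕ) (foldMask v K l (z ||| mask v K q))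
    (foldMask v K l (z ||| mask v K q)) (Nat.beq z 0) = _
  cases Nat.beq z 0 <;> rfl

theorem foldMask_testBit (v K i : ℕ) (l : List ℕ) (z : ℕ) :
    (foldMask v K l z).testBit i = true ↔
      (z.testBit i = true ∨ ∃ q ∈ l, (mask v K q).testBit i = true) := by
  induction l generalizing z with
  | nil => simp [foldMask_nil]
  | cons q l ih =>
    rw [foldMask_cons, ih, Nat.testBit_or, Bool.or_eq_true]
    simp only [List.mem_cons, exists_eq_or_imp]
    tauto

theorem sieveMask_nil (v z : ℕ) : sieveMask v [] z = z := rfl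

theorem sieveMask_cons (v z : ℕ) (g : ℕ × List ℕ) (gs : List (ℕ × List ℕ)) :
    sieveMask v (g :: gs) z = sieveMask v gs (foldMask v g.1 g.2 z) := rfl

theorem sieveMask_testBit (v i : ℕ) (gs : List (ℕ × List ℕ)) (z : ℕ) :
    (sieveMask v gs z).testBit i = true ↔
      (z.testBit i = true ∨ ∃ g ∈ gs, ∃ q ∈ g.2, (mask v g.1 q).testBit i = true) := by
  induction gs generalizing z with
  | nil => simp [sieveMask_nil]
  | cons g gs ih =>
    rw [sieveMask_cons, ih, foldMask_testBit]
    simp only [List.mem_cons, exists_eq_or_imp]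
    exact or_assoc

/-- what is required of the sieving data -/
structure GoodGs (gs : List (ℕ × List ℕ)) (lo hi L : ℕ) : Prop where
  h1 : ∀ g ∈ gs, ∀ q ∈ g.2, q % 2 = 1 ∧ 1 < q ∧ q ≤ lo ∧ L ≤ q * 2 ^ g.1
  h2 : ∀ p : ℕ, p.Prime → p ≠ 2 → p * p < hi → ∃ g ∈ gs, p ∈ g.2

/-- the bitmap of the primes `v + 2 i`, `i < L` -/
noncomputable def bitmap (v L : ℕ) (gs : List (ℕ × List ℕ)) : ℕ :=
  ((sieveMask v gs 0) ||| (2 ^ L - 1)) ^^^ (sieveMask v gs 0)

theorem bitmap_testBit (gs : List (ℕ × List ℕ)) (lo hi L v i : ℕ) (hgs : GoodGs gs lo hi L)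
    (hv : v % 2 = 1) (hv1 : 1 < v) (hlo : lo < v) (hhi : v + 2 * L ≤ hi + 1) :
    (bitmap v L gs).testBit i = true ↔ (i < L ∧ (v + 2 * i).Prime) := by
  have hb : (bitmap v L gs).testBit i = true ↔
      (i < L ∧ ¬ (sieveMask v gs 0).testBit i = true) := by
    unfold bitmap
    rw [Nat.testBit_xor, Nat.testBit_or, Nat.testBit_two_pow_sub_one]
    by_cases h : i < L <;> cases (sieveMask v gs 0).testBit i <;> simp [h]
  rw [hb]
  constructor
  · rintro ⟨hi', hs⟩
    refine ⟨hi', ?_⟩
    by_contra hnp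
    apply hs
    rw [sieveMask_testBit]
    right
    have hN1 : v + 2 * i ≠ 1 := by omega
    have hmp := Nat.minFac_prime hN1
    have hmd := Nat.minFac_dvd (v + 2 * i)
    have hsq : (v + 2 * i).minFac * (v + 2 * i).minFac ≤ v + 2 * i := by
      have := Nat.minFac_sq_le_self (by omega : 0 < v + 2 * i) hnp
      rwa [sq] at this
    have h2 : (v + 2 * i).minFac ≠ 2 := by
      intro h
      rw [h] at hmd
      omega
    obtain ⟨g, hg, hq⟩ := hgs.h2 _ hmp h2 (by omega)
    obtain ⟨o1, o2, o3, o4⟩ := hgs.h1 g hg _ hq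
    exact ⟨g, hg, _, hq, (mask_testBit v g.1 _ L i o2 o1 o4 hi').2 hmd⟩
  · rintro ⟨hi', hp⟩
    refine ⟨hi', ?_⟩
    rw [sieveMask_testBit]
    rintro (h | ⟨g, hg, q, hq, hm⟩)
    · simp at h
    · obtain ⟨o1, o2, o3, o4⟩ := hgs.h1 g hg q hq
      rw [mask_testBit v g.1 q L i o2 o1 o4 hi'] at hm
      rcases (Nat.dvd_prime hp).1 hm with h | h
      · omega
      · omega

end Pool.Agent.Helper52.PS
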