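import Mathlib
import Pool.Agent.Helper52.PS.Bits

set_option autoImplicit false

open Finset

namespace Pool.Agent.Helper52.PS

/-- the sum of the first `j` primes -/
noncomputable def psum (j : ℕ) : ℕ := ∑ i ∈ range j, Nat.nth Nat.Prime i

/-- all primes `≤ m` have been processed: there are `2 k` of them, their sum is `S`, and at most `c`
of the sums of the first `2 j` primes, `1 ≤ j ≤ k`, are prime -/
structure Inv (m k S c : ℕ) : Prop where
  cnt : Nat.count Nat.Prime (m + 1) = 2 * k
  sum : psum (2 * k) = S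
  cd : ((Icc 1 k).filter (fun j => (psum (2 * j)).Prime)).card ≤ c

theorem count_skip {m m' : ℕ} (h : m ≤ m') (hn : ∀ v, m < v → v ≤ m' → ¬ v.Prime) :
    Nat.count Nat.Prime (m' + 1) = Nat.count Nat.Prime (m + 1) := by
  induction m', h using Nat.le_induction with
  | base => rfl
  | succ n hmn ih =>
    rw [Nat.count_succ, if_neg (hn (n + 1) (by omega) le_rfl), add_zero]
    exact ih (fun v h1 h2 => hn v h1 (by omega))

theorem Inv.skip {m m' k S c : ℕ} (h : Inv m k S c) (hm : m ≤ m')
    (hn : ∀ v, m < v → v ≤ m' → ¬ v.Prime) : Inv m' k S c :=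
  ⟨(count_skip hm hn).trans h.cnt, h.sum, h.cd⟩

theorem psum_succ (j : ℕ) : psum (j + 1) = psum j + Nat.nth Nat.Prime j := by
  unfold psum
  rw [sum_range_succ]

theorem Inv.pair {m k S c p q t : ℕ} (h : Inv m k S c) (hp : p.Prime) (hmp : m < p)
    (h1 : ∀ v, m < v → v < p → ¬ v.Prime) (hq : q.Prime) (hpq : p < q)
    (h2 : ∀ v, p < v → v < q → ¬ v.Prime)
    (ht : (S + p + q).Prime → 1 ≤ t) : Inv q (k + 1) (S + p + q) (c + t) := by
  have c1 : Nat.count Nat.Prime p = 2 * k := by
    have := count_skip (m := m) (m' := p - 1) (by omega) (fun v a b => h1 v a (by omega))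
    rw [Nat.sub_add_cancel (by omega)] at this
    rw [this, h.cnt]
  have c2 : Nat.count Nat.Prime (p + 1) = 2 * k + 1 := by
    rw [Nat.count_succ, if_pos hp, c1]
  have c3 : Nat.count Nat.Prime q = 2 * k + 1 := by
    have := count_skip (m := p) (m' := q - 1) (by omega) (fun v a b => h2 v a (by omega))
    rw [Nat.sub_add_cancel (by omega)] at this
    rw [this, c2]
  have c4 : Nat.count Nat.Prime (q + 1) = 2 * (k + 1) := by
    rw [Nat.count_succ, if_pos hq, c3]; ring
  have n1 : Nat.nth Nat.Prime (2 * k) = p := by rw [← c1]; exact Nat.nth_count hp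
  have n2 : Nat.nth Nat.Prime (2 * k + 1) = q := by rw [← c3]; exact Nat.nth_count hq
  have s : psum (2 * (k + 1)) = S + p + q := by
    rw [show 2 * (k + 1) = 2 * k + 1 + 1 by ring, psum_succ, psum_succ, n1, n2, h.sum]
  refine ⟨c4, s, ?_⟩
  have e : Icc 1 (k + 1) = insert (k + 1) (Icc 1 k) := by
    ext x; simp only [mem_Icc, mem_insert]; omega
  rw [e, filter_insert]
  split_ifs with hpr
  · rw [s] at hpr
    refine (card_insert_le _ _).trans ?_
    have := h.cd
    have := ht hpr
    omega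
  · have := h.cd
    omega

/-- properties of the lowest set bit -/
theorem lowbit (x : ℕ) (hx : x ≠ 0) : ∃ l, x.testBit l = true ∧ (∀ j, j < l → x.testBit j = false) ∧
    x - (x &&& (x - 1)) = 2 ^ l ∧
    (∀ j, (x &&& (x - 1)).testBit j = true ↔ (x.testBit j = true ∧ j ≠ l)) := by
  have hex : ∃ l, x.testBit l = true := by
    by_contra hcon
    push Not at hcon
    apply hx
    apply Nat.eq_of_testBit_eq
    intro i
    have := hcon i
    rw [Nat.zero_testBit]
    simpa using this
  classical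
  let l := Nat.find hex
  have hl : x.testBit l = true := Nat.find_spec hex
  have hlt : ∀ j, j < l → x.testBit j = false := by
    intro j hj
    have := Nat.find_min hex hj
    simpa using this
  -- x = 2 ^ (l+1) * m + 2 ^ l
  set m := x / 2 ^ (l + 1) with hm
  have hx2 : x = 2 ^ (l + 1) * m + 2 ^ l := by
    apply Nat.eq_of_testBit_eq
    intro i
    rw [Nat.testBit_two_pow_mul_add m (by rw [pow_succ]; have := Nat.two_pow_pos l; omega) i]
    split_ifs with h
    · rw [Nat.testBit_two_pow]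
      rcases Nat.lt_or_ge i l with h' | h'
      · rw [hlt i h']
        symm
        simpa using (by omega : ¬ l = i)
      · have : i = l := by omega
        subst this
        rw [hl]; simp
    · rw [hm, Nat.testBit_div_two_pow]
      congr 1
      omega
  have hpos : 0 < 2 ^ l := Nat.two_pow_pos l
  have hx1 : x - 1 = 2 ^ (l + 1) * m + (2 ^ l - 1) := by omega
  have hand : x &&& (x - 1) = 2 ^ (l + 1) * m := by
    apply Nat.eq_of_testBit_eq
    intro i
    rw [Nat.testBit_and, hx1]
    conv_lhs => rw [hx2]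
    rw [Nat.testBit_two_pow_mul_add m (by rw [pow_succ]; omega) i,
      Nat.testBit_two_pow_mul_add m (by rw [pow_succ]; omega) i]
    have h0 := Nat.testBit_two_pow_mul_add m (b := 0) (i := l + 1) (Nat.two_pow_pos _) i
    rw [add_zero] at h0
    rw [h0]
    split_ifs with h
    · rw [Nat.testBit_two_pow, Nat.testBit_two_pow_sub_one, Nat.zero_testBit]
      rcases Nat.lt_or_ge i l with h' | h'
      · simp [show ¬ l = i by omega]
      · simp [show ¬ i < l by omega]
    · simp
  refine ⟨l, hl, hlt, by omega, ?_⟩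
  intro j
  rw [hand]
  have h0 := Nat.testBit_two_pow_mul_add m (b := 0) (i := l + 1) (Nat.two_pow_pos _) j
  rw [add_zero] at h0
  rw [h0]
  have h1 := Nat.testBit_two_pow_mul_add m (b := 2 ^ l) (i := l + 1) (by rw [pow_succ]; omega) j
  rw [← hx2] at h1
  rw [h1]
  split_ifs with h
  · rw [Nat.zero_testBit, Nat.testBit_two_pow]
    simp only [Bool.false_eq_true, decide_eq_true_eq, false_iff, not_and, not_not]
    intro h; exact h.symm
  · constructor
    · intro h2; exact ⟨h2, by omega⟩
    · intro h2; exact h2.1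

/-- `x` represents the primes `v + 2 l`, `l ≥ t`, up to its highest bit -/
structure Rep (v x t : ℕ) : Prop where
  h1 : ∀ l, x.testBit l = true → t ≤ l ∧ (v + 2 * l).Prime
  h2 : ∀ l l', t ≤ l → l < l' → x.testBit l' = true → x.testBit l = false → ¬ (v + 2 * l).Prime

theorem Rep.step {v x t : ℕ} (h : Rep v x t) (hv : v % 2 = 1) (hv3 : 3 ≤ v) (hx : x ≠ 0) :
    ∃ l, t ≤ l ∧ x.testBit l = true ∧ (v + 2 * l).Prime ∧
      (∀ u, v - 1 + 2 * t < u → u < v + 2 * l → ¬ u.Prime) ∧
      x - (x &&& (x - 1)) = 2 ^ l ∧ Rep v (x &&& (x - 1)) (l + 1) := by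
  obtain ⟨l, hl, hlt, hsub, hand⟩ := lowbit x hx
  obtain ⟨htl, hp⟩ := h.h1 l hl
  refine ⟨l, htl, hl, hp, ?_, hsub, ?_⟩
  · intro u hu1 hu2 hup
    rcases Nat.even_or_odd u with he | ho
    · have := (Nat.Prime.even_iff hup).1 he
      omega
    · obtain ⟨w, hw⟩ := ho
      -- u = v + 2 j with t ≤ j < l
      have : ∃ j, u = v + 2 * j ∧ t ≤ j ∧ j < l := ⟨(u - v) / 2, by omega, by omega, by omega⟩
      obtain ⟨j, rfl, h3, h4⟩ := this
      exact h.h2 j l h3 h4 hl (hlt j h4) hup
  · constructor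
    · intro j hj
      obtain ⟨h3, h4⟩ := (hand j).1 hj
      obtain ⟨h5, h6⟩ := h.h1 j h3
      refine ⟨?_, h6⟩
      by_contra hcon
      have : j < l := by omega
      rw [hlt j this] at h3
      exact Bool.false_ne_true h3
    · intro j j' h3 h4 h5 h6
      obtain ⟨h7, h8⟩ := (hand j').1 h5
      refine h.h2 j j' (by omega) h4 h7 ?_
      by_contra hcon
      have h9 : x.testBit j = true := by simpa using hcon
      have := (hand j).2 ⟨h9, by omega⟩
      rw [h6] at this
      exact Bool.false_ne_true this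

theorem pack_def (S c A : ℕ) : pack S c A = (S * 1048576 + c) * 268435456 + A := rfl
theorem gS_def (R : ℕ) : gS R = R / 281474976710656 := rfl
theorem gc_def (R : ℕ) : gc R = R / 268435456 % 1048576 := rfl
theorem gA_def (R : ℕ) : gA R = R % 268435456 := rfl

theorem lk_pow (e : ℕ) (he : e < 2048) : lk (2 ^ e) = e := by
  have h : ∀ a < 64, ∀ b < 32, Nat.beq (lk (2 ^ (32 * a + b))) (32 * a + b) = true := by
    decide +kernel
  have := h (e / 32) (by omega) (e % 32) (by omega)
  rw [show 32 * (e / 32) + e % 32 = e by omega] at this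
  exact Nat.eq_of_beq_eq_true this

theorem pstep_def (S e y k : ℕ) : pstep S e y k = (y ^ 128 * 2 ^ ((e >>> k) &&& 127)) % S := rfl

theorem pstep_spec (S e y k : ℕ) (h : y ≡ 2 ^ (e >>> (k + 7)) [MOD S]) :
    pstep S e y k ≡ 2 ^ (e >>> k) [MOD S] ∧ pstep S e y k = 2 ^ (e >>> k) % S := by
  have h1 : y ^ 128 * 2 ^ ((e >>> k) &&& 127) ≡ 2 ^ (e >>> k) [MOD S] := by
    have h2 : (e >>> k) &&& 127 = (e >>> k) % 128 := Nat.and_two_pow_sub_one_eq_mod (e >>> k) 7
    have h3 : e >>> (k + 7) = (e >>> k) / 128 := by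
      rw [Nat.shiftRight_add, Nat.shiftRight_eq_div_pow (e >>> k) 7]
    rw [h2]
    rw [h3] at h
    calc y ^ 128 * 2 ^ ((e >>> k) % 128) ≡ (2 ^ ((e >>> k) / 128)) ^ 128 * 2 ^ ((e >>> k) % 128) [MOD S] :=
          (h.pow 128).mul_right _
      _ = 2 ^ (e >>> k) := by
          rw [← pow_mul, ← pow_add]
          congr 1
          omega
  constructor
  · rw [pstep_def]
    exact (Nat.mod_modEq _ _).trans h1
  · rw [pstep_def]
    exact h1

theorem pmod_spec (S e : ℕ) : pmod S e = 2 ^ e % S := by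
  unfold pmod
  have h8 : (2 ^ (e >>> 42)) ≡ 2 ^ (e >>> (35 + 7)) [MOD S] := Nat.ModEq.refl _
  have h5 := (pstep_spec S e _ 35 h8).1
  have h4 := (pstep_spec S e _ 28 h5).1
  have h3 := (pstep_spec S e _ 21 h4).1
  have h2 := (pstep_spec S e _ 14 h3).1
  have h1 := (pstep_spec S e _ 7 h2).1
  have h0 := (pstep_spec S e _ 0 h1).2
  rw [Nat.shiftRight_zero] at h0
  exact h0

theorem tst_spec (P S : ℕ) (hS : S.Prime) (h2 : S ≠ 2) (hg : Nat.gcd S P = 1) : tst P S = 1 := by
  have h1 : tst P S = Nat.rec (motive := fun _ => ℕ) 0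
    (fun _ _ => isle1 (pmod S (S - 1))) (isle1 (Nat.gcd S P)) := rfl
  rw [h1, hg]
  have h3 : isle1 1 = 1 := rfl
  rw [h3]
  show isle1 (pmod S (S - 1)) = 1
  rw [pmod_spec]
  have hc : Nat.Coprime 2 S := by
    rw [Nat.coprime_comm, Nat.coprime_two_right]
    exact hS.odd_of_ne_two h2
  have h4 : 2 ^ (S - 1) ≡ 1 [MOD S] := by
    have := Nat.ModEq.pow_totient hc
    rwa [Nat.totient_prime hS] at this
  have h5 : 2 ^ (S - 1) % S = 1 := by
    have : 2 ^ (S - 1) % S = 1 % S := h4
    rw [this, Nat.mod_eq_of_lt hS.one_lt]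
  rw [h5]; rfl

end Pool.Agent.Helper52.PS
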