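import Mathlib
import Pool.Agent.Helper52.PS.Steps

set_option autoImplicit false

open Finset

namespace Pool.Agent.Helper52.PS

/-- the state `R` is valid, `k` pairs of primes having been processed -/
structure InvR (R k : ℕ) : Prop where
  even : gA R % 2 = 0
  two : 2 ≤ gA R
  inv : Inv (gA R) k (gS R) (gc R)

theorem gA_pack (S c A : ℕ) (hA : A ≤ 268435455) : gA (pack S c A) = A := by
  rw [gA_def, pack_def]; omega

theorem gc_pack (S c A : ℕ) (hc : c ≤ 1048575) (hA : A ≤ 268435455) : gc (pack S c A) = c := by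
  rw [gc_def, pack_def]; omega

theorem gS_pack (S c A : ℕ) (hc : c ≤ 1048575) (hA : A ≤ 268435455) : gS (pack S c A) = S := by
  rw [gS_def, pack_def]; omega

theorem win_zero (P v x S c b : ℕ) : win P v 0 x S c b =
    Bool.rec (motive := fun _ => ℕ) 0
      (Bool.rec (motive := fun _ => ℕ) 0
        (Bool.rec (motive := fun _ => ℕ) 0
          (pack S c (v + (1 + 2 * (lk b))))
          (Nat.ble (v + (1 + 2 * (lk b))) 268435455))
        (Nat.ble c 1048575))
      (Nat.ble 1 b) := rfl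

theorem win_zero_ne (P v x S c b : ℕ) (h : win P v 0 x S c b ≠ 0) :
    1 ≤ b ∧ c ≤ 1048575 ∧ v + (1 + 2 * (lk b)) ≤ 268435455 ∧
      win P v 0 x S c b = pack S c (v + (1 + 2 * (lk b))) := by
  rw [win_zero] at h ⊢
  cases h1 : Nat.ble 1 b
  · rw [h1] at h; exact absurd rfl h
  · rw [h1] at h
    cases h2 : Nat.ble c 1048575
    · rw [h2] at h; exact absurd rfl h
    · rw [h2] at h
      cases h3 : Nat.ble (v + (1 + 2 * (lk b))) 268435455
      · rw [h3] at h; exact absurd rfl h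
      · exact ⟨Nat.le_of_ble_eq_true h1, Nat.le_of_ble_eq_true h2, Nat.le_of_ble_eq_true h3, rfl⟩

theorem win_succ (P v n x S c b : ℕ) : win P v (n + 1) x S c b =
    win P v n ((x &&& (x - 1)) &&& ((x &&& (x - 1)) - 1))
      (S + 2 * (v + lk ((x - (x &&& (x - 1))) *
        ((x &&& (x - 1)) - ((x &&& (x - 1)) &&& ((x &&& (x - 1)) - 1))))))
      (c + tst P (S + 2 * (v + lk ((x - (x &&& (x - 1))) *
        ((x &&& (x - 1)) - ((x &&& (x - 1)) &&& ((x &&& (x - 1)) - 1)))))))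
      ((x &&& (x - 1)) - ((x &&& (x - 1)) &&& ((x &&& (x - 1)) - 1))) := rfl

theorem win_dead (P v n S c : ℕ) : win P v n 0 S c 0 = 0 := by
  induction n generalizing S c with
  | zero =>
    by_contra h
    have := (win_zero_ne P v 0 S c 0 h).1
    omega
  | succ n ih =>
    rw [win_succ]
    simp only [Nat.zero_and, Nat.sub_self]
    exact ih _ _

/-- the state inside a window -/
structure Alive (v x S c k t : ℕ) : Prop where
  rep : Rep v x t
  lt : x < 2 ^ 1024
  inv : Inv (v - 1 + 2 * t) k S c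

set_option exponentiation.threshold 2000 in
theorem testBit_lt {x l : ℕ} (hx : x < 2 ^ 1024) (h : x.testBit l = true) : l < 1024 := by
  by_contra hcon
  have h1 : x < 2 ^ l := lt_of_lt_of_le hx (Nat.pow_le_pow_right (by norm_num) (by omega))
  rw [Nat.testBit_lt_two_pow h1] at h
  exact Bool.false_ne_true h

theorem and_lt' {x y : ℕ} (hx : x < 2 ^ 1024) : x &&& y < 2 ^ 1024 :=
  lt_of_le_of_lt Nat.and_le_left hx

theorem win_step (P v n x S c b k t : ℕ) (hv : v % 2 = 1) (hv3 : 3 ≤ v)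
    (hP : ∀ s, S ≤ s → s.Prime → Nat.gcd s P = 1) (ha : Alive v x S c k t)
    (hne : win P v (n + 1) x S c b ≠ 0) :
    ∃ x' S' c' l', Alive v x' S' c' (k + 1) (l' + 1) ∧ l' < 1024 ∧ t ≤ l' + 1 ∧ S ≤ S' ∧
      win P v (n + 1) x S c b = win P v n x' S' c' (2 ^ l') := by
  rw [win_succ] at hne ⊢
  have hx0 : x ≠ 0 := by
    intro h
    subst h
    simp only [Nat.zero_and, Nat.sub_self] at hne
    exact hne (win_dead _ _ _ _ _)
  obtain ⟨l1, htl1, hb1, hp1, hn1, hs1, hr1⟩ := ha.rep.step hv hv3 hx0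
  set y1 := x &&& (x - 1) with hy1
  have hy10 : y1 ≠ 0 := by
    intro h
    rw [h] at hne
    simp only [Nat.zero_and, Nat.sub_self] at hne
    exact hne (win_dead _ _ _ _ _)
  obtain ⟨l2, htl2, hb2, hp2, hn2, hs2, hr2⟩ := hr1.step hv hv3 hy10
  set y2 := y1 &&& (y1 - 1) with hy2
  have hlt1 : l1 < 1024 := testBit_lt ha.lt hb1
  have hy1lt : y1 < 2 ^ 1024 := and_lt' ha.lt
  have hlt2 : l2 < 1024 := testBit_lt hy1lt hb2
  have hlk : lk ((x - y1) * (y1 - y2)) = l1 + l2 := by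
    rw [hs1, hs2, ← pow_add]
    exact lk_pow _ (by omega)
  rw [hlk, hs2]
  have hS' : S + 2 * (v + (l1 + l2)) = S + (v + 2 * l1) + (v + 2 * l2) := by ring
  refine ⟨y2, S + 2 * (v + (l1 + l2)), c + tst P (S + 2 * (v + (l1 + l2))), l2, ?_, hlt2, by omega,
    by omega, rfl⟩
  refine ⟨hr2, and_lt' hy1lt, ?_⟩
  have hinv : Inv (v + 2 * l2) (k + 1) (S + (v + 2 * l1) + (v + 2 * l2))
      (c + tst P (S + 2 * (v + (l1 + l2)))) := by
    refine ha.inv.pair hp1 (by omega) hn1 hp2 (by omega) ?_ ?_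
    · intro u hu1 hu2 hup
      rcases Nat.lt_or_ge (v - 1 + 2 * (l1 + 1)) u with h | h
      · exact hn2 u h hu2 hup
      · have := (Nat.Prime.even_iff hup).1 (by rw [Nat.even_iff]; omega)
        omega
    · intro hpr
      rw [← hS'] at hpr
      rw [tst_spec P _ hpr (by omega) (hP _ (by omega) hpr)]
  rw [hS']
  rw [hS'] at hinv
  refine hinv.skip (by omega) ?_
  intro u hu1 hu2 hup
  have hu : u = v + 2 * l2 + 1 := by omega
  have := (Nat.Prime.even_iff hup).1 (by rw [Nat.even_iff]; omega)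
  omega

theorem win_main (P v n x S c k t l : ℕ) (hv : v % 2 = 1) (hv3 : 3 ≤ v) (hl : l < 1024)
    (ht : t = l + 1)
    (hP : ∀ s, S ≤ s → s.Prime → Nat.gcd s P = 1) (ha : Alive v x S c k t)
    (hne : win P v n x S c (2 ^ l) ≠ 0) :
    InvR (win P v n x S c (2 ^ l)) (k + n) ∧ S ≤ gS (win P v n x S c (2 ^ l)) ∧
      v - 1 ≤ gA (win P v n x S c (2 ^ l)) := by
  induction n generalizing x S c k t l with
  | zero =>
    obtain ⟨h1, h2, h3, h4⟩ := win_zero_ne P v x S c (2 ^ l) hne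
    rw [h4]
    rw [lk_pow l (by omega)] at h3 ⊢
    have e : v + (1 + 2 * l) = v - 1 + 2 * t := by omega
    have hinv := ha.inv
    rw [← e] at hinv
    refine ⟨⟨?_, ?_, ?_⟩, ?_, ?_⟩
    · rw [gA_pack _ _ _ h3]; omega
    · rw [gA_pack _ _ _ h3]; omega
    · rw [gA_pack _ _ _ h3, gc_pack _ _ _ h2 h3, gS_pack _ _ _ h2 h3]
      exact hinv
    · rw [gS_pack _ _ _ h2 h3]
    · rw [gA_pack _ _ _ h3]; omega
  | succ n ih =>
    obtain ⟨x', S', c', l', ha', hl', htl, hSS, heq⟩ :=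
      win_step P v n x S c (2 ^ l) k t hv hv3 hP ha hne
    rw [heq] at hne ⊢
    obtain ⟨r1, r2, r3⟩ := ih x' S' c' (k + 1) (l' + 1) l' hl' rfl
      (fun s hs hp => hP s (by omega) hp) ha' hne
    refine ⟨?_, by omega, r3⟩
    rw [show k + (n + 1) = k + 1 + n by ring]
    exact r1

theorem win_spec (P v n x S c k : ℕ) (hv : v % 2 = 1) (hv3 : 3 ≤ v)
    (hP : ∀ s, S ≤ s → s.Prime → Nat.gcd s P = 1) (ha : Alive v x S c k 0)
    (hne : win P v (n + 1) x S c 0 ≠ 0) :
    InvR (win P v (n + 1) x S c 0) (k + (n + 1)) ∧ S ≤ gS (win P v (n + 1) x S c 0) ∧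
      v - 1 ≤ gA (win P v (n + 1) x S c 0) := by
  obtain ⟨x', S', c', l', ha', hl', htl, hSS, heq⟩ :=
      win_step P v n x S c 0 k 0 hv hv3 hP ha hne
  rw [heq] at hne ⊢
  obtain ⟨r1, r2, r3⟩ := win_main P v n x' S' c' (k + 1) (l' + 1) l' hv hv3 hl' rfl
      (fun s hs hp => hP s (by omega) hp) ha' hne
  refine ⟨?_, by omega, r3⟩
  rw [show k + (n + 1) = k + 1 + n by ring]
  exact r1

theorem wins_zero (P np A0 X R : ℕ) : wins P np A0 X 0 R = R := rfl

theorem wins_succ (P np A0 X n R : ℕ) : wins P np A0 X (n + 1) R =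
    Bool.rec (motive := fun _ => ℕ)
      (wins P np A0 X n (win P (gA R + 1) np ((X >>> ((gA R - A0) / 2)) % 2 ^ 1024) (gS R) (gc R) 0))
      0 (Nat.beq R 0) := rfl

theorem wins_succ_ne (P np A0 X n R : ℕ) (h : wins P np A0 X (n + 1) R ≠ 0) :
    R ≠ 0 ∧ wins P np A0 X (n + 1) R = wins P np A0 X n
      (win P (gA R + 1) np ((X >>> ((gA R - A0) / 2)) % 2 ^ 1024) (gS R) (gc R) 0) := by
  rw [wins_succ] at h ⊢
  cases h1 : Nat.beq R 0
  · exact ⟨Nat.ne_of_beq_eq_false h1, rfl⟩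
  · rw [h1] at h; exact absurd rfl h

theorem wins_of_zero (P np A0 X n : ℕ) : wins P np A0 X n 0 = 0 := by
  cases n with
  | zero => rfl
  | succ n => rw [wins_succ]; rfl

theorem wins_spec (P m A0 X L n R k : ℕ) (hA0 : A0 % 2 = 0)
    (hX : ∀ i, X.testBit i = true ↔ (i < L ∧ (A0 + 1 + 2 * i).Prime))
    (hR : InvR R k) (hA : A0 ≤ gA R)
    (hP : ∀ s, gS R ≤ s → s.Prime → Nat.gcd s P = 1)
    (hne : wins P (m + 1) A0 X n R ≠ 0) :
    InvR (wins P (m + 1) A0 X n R) (k + (m + 1) * n) ∧ gS R ≤ gS (wins P (m + 1) A0 X n R) := by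
  induction n generalizing R k with
  | zero => exact ⟨hR, le_rfl⟩
  | succ n ih =>
    obtain ⟨hR0, heq⟩ := wins_succ_ne P (m + 1) A0 X n R hne
    rw [heq] at hne ⊢
    set x := (X >>> ((gA R - A0) / 2)) % 2 ^ 1024 with hx
    have hwne : win P (gA R + 1) (m + 1) x (gS R) (gc R) 0 ≠ 0 := by
      intro h0
      rw [h0, wins_of_zero] at hne
      exact hne rfl
    have hxb : ∀ l, x.testBit l = true ↔
        (l < 1024 ∧ (gA R - A0) / 2 + l < L ∧ (gA R + 1 + 2 * l).Prime) := by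
      intro l
      rw [hx, Nat.testBit_mod_two_pow, Nat.testBit_shiftRight, Bool.and_eq_true,
        decide_eq_true_eq, hX]
      have he := hR.even
      have : A0 + 1 + 2 * ((gA R - A0) / 2 + l) = gA R + 1 + 2 * l := by omega
      rw [this]
    have hrep : Rep (gA R + 1) x 0 := by
      constructor
      · intro l hl
        exact ⟨Nat.zero_le _, ((hxb l).1 hl).2.2⟩
      · intro l l' _ h2 h3 h4 h5
        obtain ⟨g1, g2, g3⟩ := (hxb l').1 h3
        have := (hxb l).2 ⟨by omega, by omega, h5⟩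
        rw [h4] at this
        exact Bool.false_ne_true this
    have halive : Alive (gA R + 1) x (gS R) (gc R) k 0 := by
      refine ⟨hrep, Nat.mod_lt _ (Nat.two_pow_pos _), ?_⟩
      have := hR.inv
      simpa using this
    have he := hR.even
    have ht := hR.two
    obtain ⟨r1, r2, r3⟩ := win_spec P (gA R + 1) m x (gS R) (gc R) k (by omega) (by omega) hP
      halive hwne
    obtain ⟨q1, q2⟩ := ih _ _ r1 (by omega) (fun s hs hp => hP s (by omega) hp) hne
    refine ⟨?_, by omega⟩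
    rw [show k + (m + 1) * (n + 1) = k + (m + 1) + (m + 1) * n by ring]
    exact q1

theorem block_def (gs : List (ℕ × List ℕ)) (lo hi L P np nW R : ℕ) :
    block gs lo hi L P np nW R = Bool.rec (motive := fun _ => ℕ) 0
    (Bool.rec (motive := fun _ => ℕ) 0
      (wins P np (gA R) (bitmap (gA R + 1) L gs) nW R)
      (Nat.ble (gA R + 2 * L) hi))
    (Nat.ble lo (gA R)) := rfl

theorem block_spec (gs : List (ℕ × List ℕ)) (lo hi L P m nW R k : ℕ) (hgs : GoodGs gs lo hi L)
    (hR : InvR R k) (hP : ∀ s, gS R ≤ s → s.Prime → Nat.gcd s P = 1)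
    (hne : block gs lo hi L P (m + 1) nW R ≠ 0) :
    InvR (block gs lo hi L P (m + 1) nW R) (k + (m + 1) * nW) ∧
      gS R ≤ gS (block gs lo hi L P (m + 1) nW R) := by
  rw [block_def] at hne ⊢
  cases h1 : Nat.ble lo (gA R)
  · rw [h1] at hne; exact absurd rfl hne
  · rw [h1] at hne
    cases h2 : Nat.ble (gA R + 2 * L) hi
    · rw [h2] at hne; exact absurd rfl hne
    · rw [h2] at hne
      have h1' := Nat.le_of_ble_eq_true h1
      have h2' := Nat.le_of_ble_eq_true h2
      have he := hR.even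
      have ht := hR.two
      exact wins_spec P m (gA R) _ L nW R k he
        (fun i => bitmap_testBit gs lo hi L (gA R + 1) i hgs (by omega) (by omega) (by omega)
          (by omega)) hR le_rfl hP hne

theorem block_of_zero_ne (gs : List (ℕ × List ℕ)) (lo hi L P np nW : ℕ) :
    block gs lo hi L P np nW 0 = 0 := by
  rw [block_def, wins_of_zero]
  cases Nat.ble lo (gA 0)
  · rfl
  · cases Nat.ble (gA 0 + 2 * L) hi <;> rfl

end Pool.Agent.Helper52.PS
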