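import Mathlib
import Pool.Agent.Helper52.PS.Correct

set_option autoImplicit false

open Finset

namespace Pool.Agent.Helper52.PS

/-- the number with the bits `(q - w) / 2`, `q ∈ l`, set (in addition to those of `z`) -/
noncomputable def bitsOf (w : ℕ) (l : List ℕ) : ℕ → ℕ :=
  List.rec (motive := fun _ => ℕ → ℕ) (fun z => z)
    (fun q _ ih z => Bool.rec (motive := fun _ => ℕ)
      (ih (Nat.lor z (Nat.shiftLeft (nat_lit 1) (Nat.div (Nat.sub q w) (nat_lit 2)))))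
      (ih (Nat.lor z (Nat.shiftLeft (nat_lit 1) (Nat.div (Nat.sub q w) (nat_lit 2)))))
      (Nat.beq z (nat_lit 0))) l

theorem bitsOf_nil (w z : ℕ) : bitsOf w [] z = z := rfl

theorem bitsOf_cons (w q z : ℕ) (l : List ℕ) :
    bitsOf w (q :: l) z = bitsOf w l (z ||| (1 <<< ((q - w) / 2))) := by
  show Bool.rec (motive := fun _ => ℕ) (bitsOf w l (z ||| (1 <<< ((q - w) / 2))))
    (bitsOf w l (z ||| (1 <<< ((q - w) / 2)))) (Nat.beq z 0) = _
  cases Nat.beq z 0 <;> rfl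

theorem bitsOf_testBit (w i : ℕ) (l : List ℕ) (z : ℕ) :
    (bitsOf w l z).testBit i = true ↔ (z.testBit i = true ∨ ∃ q ∈ l, (q - w) / 2 = i) := by
  induction l generalizing z with
  | nil => simp [bitsOf_nil]
  | cons q l ih =>
    rw [bitsOf_cons, ih, Nat.testBit_or, Nat.one_shiftLeft, Nat.testBit_two_pow, Bool.or_eq_true,
      decide_eq_true_eq]
    simp only [List.mem_cons, exists_eq_or_imp]
    exact or_assoc

theorem goodA : GoodGs grpsA 7 121 56 where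
  h1 := by decide +kernel
  h2 := by
    intro p hp h2 hlt
    have h11 : p < 11 := by nlinarith
    have : ∀ p < 11, p.Prime → p ≠ 2 → ∃ g ∈ grpsA, p ∈ g.2 := by decide +kernel
    exact this p h11 hp h2

theorem goodB' (L : ℕ) (hL : L ≤ 12288) : GoodGs grpsB 113 16129 L where
  h1 := by
    have h : ∀ g ∈ grpsB, ∀ q ∈ g.2, q % 2 = 1 ∧ 1 < q ∧ q ≤ 113 ∧ 12288 ≤ q * 2 ^ g.1 := by
      decide +kernel
    intro g hg q hq
    obtain ⟨a, b, c, d⟩ := h g hg q hq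
    exact ⟨a, b, c, by omega⟩
  h2 := by
    intro p hp h2 hlt
    have h11 : p < 127 := by nlinarith
    have : ∀ p < 127, p.Prime → p ≠ 2 → ∃ g ∈ grpsB, p ∈ g.2 := by decide +kernel
    exact this p h11 hp h2

theorem bits_eq : bitmap 129 5912 grpsB =
    bitsOf 129 ps13 (bitsOf 129 ps12 (bitsOf 129 ps11 (bitsOf 129 ps10 (bitsOf 129 ps9
      (bitsOf 129 ps8 (bitsOf 129 ps7 0)))))) := by
  unfold bitmap
  exact Nat.eq_of_beq_eq_true (by decide +kernel)

theorem all_ge : (∀ q ∈ ps7, 129 ≤ q ∧ q % 2 = 1) ∧ (∀ q ∈ ps8, 129 ≤ q ∧ q % 2 = 1) ∧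
    (∀ q ∈ ps9, 129 ≤ q ∧ q % 2 = 1) ∧ (∀ q ∈ ps10, 129 ≤ q ∧ q % 2 = 1) ∧
    (∀ q ∈ ps11, 129 ≤ q ∧ q % 2 = 1) ∧ (∀ q ∈ ps12, 129 ≤ q ∧ q % 2 = 1) ∧
    (∀ q ∈ ps13, 129 ≤ q ∧ q % 2 = 1) := by
  decide +kernel

theorem complete_small : ∀ p < 129, p.Prime → p ≠ 2 → ∃ g ∈ grpsMain, p ∈ g.2 := by
  decide +kernel

theorem mem_main : (∃ g ∈ grpsMain, g.2 = ps7) ∧ (∃ g ∈ grpsMain, g.2 = ps8) ∧
    (∃ g ∈ grpsMain, g.2 = ps9) ∧ (∃ g ∈ grpsMain, g.2 = ps10) ∧
    (∃ g ∈ grpsMain, g.2 = ps11) ∧ (∃ g ∈ grpsMain, g.2 = ps12) ∧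
    (∃ g ∈ grpsMain, g.2 = ps13) := by
  simp [grpsMain]

theorem complete_large (p : ℕ) (hp : p.Prime) (h1 : 129 ≤ p) (h2 : p < 11953) :
    ∃ g ∈ grpsMain, p ∈ g.2 := by
  have hodd : p % 2 = 1 := by
    rcases hp.eq_two_or_odd with h | h
    · omega
    · exact h
  have hb := (bitmap_testBit grpsB 113 16129 5912 129 ((p - 129) / 2) (goodB' 5912 (by norm_num))
    (by norm_num) (by norm_num) (by norm_num) (by norm_num)).2
    ⟨by omega, by rwa [show 129 + 2 * ((p - 129) / 2) = p by omega]⟩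
  rw [bits_eq] at hb
  simp only [bitsOf_testBit, Nat.zero_testBit, Bool.false_eq_true, false_or] at hb
  obtain ⟨a7, a8, a9, a10, a11, a12, a13⟩ := all_ge
  obtain ⟨⟨g7, m7, e7⟩, ⟨g8, m8, e8⟩, ⟨g9, m9, e9⟩, ⟨g10, m10, e10⟩, ⟨g11, m11, e11⟩,
    ⟨g12, m12, e12⟩, ⟨g13, m13, e13⟩⟩ := mem_main
  rcases hb with (((((⟨q, hq, he⟩ | ⟨q, hq, he⟩) | ⟨q, hq, he⟩) | ⟨q, hq, he⟩) |
    ⟨q, hq, he⟩) | ⟨q, hq, he⟩) | ⟨q, hq, he⟩
  · have := a7 q hq
    exact ⟨g7, m7, by rw [e7]; rwa [show p = q by omega]⟩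
  · have := a8 q hq
    exact ⟨g8, m8, by rw [e8]; rwa [show p = q by omega]⟩
  · have := a9 q hq
    exact ⟨g9, m9, by rw [e9]; rwa [show p = q by omega]⟩
  · have := a10 q hq
    exact ⟨g10, m10, by rw [e10]; rwa [show p = q by omega]⟩
  · have := a11 q hq
    exact ⟨g11, m11, by rw [e11]; rwa [show p = q by omega]⟩
  · have := a12 q hq
    exact ⟨g12, m12, by rw [e12]; rwa [show p = q by omega]⟩
  · have := a13 q hq
    exact ⟨g13, m13, by rw [e13]; rwa [show p = q by omega]⟩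

theorem goodMain : GoodGs grpsMain 11952 142874209 65536 where
  h1 := by decide +kernel
  h2 := by
    intro p hp h2 hlt
    have h11 : p < 11953 := by nlinarith
    rcases Nat.lt_or_ge p 129 with h | h
    · exact complete_small p h hp h2
    · exact complete_large p hp h h11

theorem PP_eq : PP = (ps1.prod * ps2.prod * ps3.prod * ps4.prod * ps5.prod * ps6.prod) *
    (ps7.prod * ps8.prod * ps9.prod * ps10.prod * ps11.prod * ps12.prod * ps13.prod) :=
  Nat.eq_of_beq_eq_true (by decide +kernel)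

theorem dvd_list (l : List ℕ) (hl : ∀ q ∈ l, 1 < q ∧ q ≤ 11952) (s : ℕ) (hs : s.Prime)
    (h : s ∣ l.prod) : s ≤ 11952 := by
  obtain ⟨q, hq, hd⟩ := (Prime.dvd_prod_iff (Nat.prime_iff.1 hs)).1 h
  have := hl q hq
  have := Nat.le_of_dvd (by omega) hd
  omega

theorem all_le : (∀ q ∈ ps1, 1 < q ∧ q ≤ 11952) ∧ (∀ q ∈ ps2, 1 < q ∧ q ≤ 11952) ∧
    (∀ q ∈ ps3, 1 < q ∧ q ≤ 11952) ∧ (∀ q ∈ ps4, 1 < q ∧ q ≤ 11952) ∧
    (∀ q ∈ ps5, 1 < q ∧ q ≤ 11952) ∧ (∀ q ∈ ps6, 1 < q ∧ q ≤ 11952) ∧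
    (∀ q ∈ ps7, 1 < q ∧ q ≤ 11952) ∧ (∀ q ∈ ps8, 1 < q ∧ q ≤ 11952) ∧
    (∀ q ∈ ps9, 1 < q ∧ q ≤ 11952) ∧ (∀ q ∈ ps10, 1 < q ∧ q ≤ 11952) ∧
    (∀ q ∈ ps11, 1 < q ∧ q ≤ 11952) ∧ (∀ q ∈ ps12, 1 < q ∧ q ≤ 11952) ∧
    (∀ q ∈ ps13, 1 < q ∧ q ≤ 11952) := by
  decide +kernel

theorem gcd_PP (s : ℕ) (hs : s.Prime) (h : 11953 ≤ s) : Nat.gcd s PP = 1 := by
  rw [← Nat.coprime_iff_gcd_eq_one, Nat.Prime.coprime_iff_not_dvd hs]
  intro hd
  rw [PP_eq] at hd
  obtain ⟨b1, b2, b3, b4, b5, b6, b7, b8, b9, b10, b11, b12, b13⟩ := all_le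
  have : s ≤ 11952 := by
    simp only [hs.dvd_mul] at hd
    rcases hd with (((((h | h) | h) | h) | h) | h) | ((((((h | h) | h) | h) | h) | h) | h)
    · exact dvd_list _ b1 s hs h
    · exact dvd_list _ b2 s hs h
    · exact dvd_list _ b3 s hs h
    · exact dvd_list _ b4 s hs h
    · exact dvd_list _ b5 s hs h
    · exact dvd_list _ b6 s hs h
    · exact dvd_list _ b7 s hs h
    · exact dvd_list _ b8 s hs h
    · exact dvd_list _ b9 s hs h
    · exact dvd_list _ b10 s hs h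
    · exact dvd_list _ b11 s hs h
    · exact dvd_list _ b12 s hs h
    · exact dvd_list _ b13 s hs h
  omega

theorem run_zero (nW R : ℕ) : run nW 0 R = R := rfl

theorem run_succ (nW n R : ℕ) : run nW (n + 1) R = Bool.rec (motive := fun _ => ℕ)
    (run nW n (block grpsMain 11952 142874209 65536 PP 30 nW R)) 0 (Nat.beq R 0) := rfl

theorem run_of_zero (nW n : ℕ) : run nW n 0 = 0 := by
  cases n with
  | zero => rfl
  | succ n => rw [run_succ]; rfl

theorem run_spec (nW n R k : ℕ) (hR : InvR R k) (hS : 11953 ≤ gS R) (hne : run nW n R ≠ 0) :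
    InvR (run nW n R) (k + 30 * nW * n) ∧ 11953 ≤ gS (run nW n R) := by
  induction n generalizing R k with
  | zero => exact ⟨hR, hS⟩
  | succ n ih =>
    rw [run_succ] at hne ⊢
    cases h1 : Nat.beq R 0
    · rw [h1] at hne
      have hb : block grpsMain 11952 142874209 65536 PP 30 nW R ≠ 0 := by
        intro h0
        apply hne
        show run nW n (block grpsMain 11952 142874209 65536 PP 30 nW R) = 0
        rw [h0, run_of_zero]
      obtain ⟨r1, r2⟩ := block_spec grpsMain 11952 142874209 65536 PP 29 nW R k goodMain hR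
        (fun s hs hp => gcd_PP s hp (by omega)) hb
      obtain ⟨q1, q2⟩ := ih _ _ r1 (by omega) hne
      refine ⟨?_, q2⟩
      rw [show k + 30 * nW * (n + 1) = k + (29 + 1) * nW + 30 * nW * n by ring]
      exact q1
    · rw [h1] at hne; exact absurd rfl hne

theorem run_step {nW n R R' k k' : ℕ} (h : run nW n R = R') (hR' : R' ≠ 0)
    (hk : k' = k + 30 * nW * n) (hR : InvR R k ∧ 11953 ≤ gS R) :
    InvR R' k' ∧ 11953 ≤ gS R' := by
  subst h hk
  exact run_spec nW n R k hR.1 hR.2 hR'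

/-- the initial state -/
theorem init : InvR (pack 17 2 8) 2 := by
  refine ⟨by rfl, by decide, ?_⟩
  have e1 : gA (pack 17 2 8) = 8 := rfl
  have e2 : gS (pack 17 2 8) = 17 := rfl
  have e3 : gc (pack 17 2 8) = 2 := rfl
  rw [e1, e2, e3]
  refine ⟨by decide, ?_, ?_⟩
  · have n0 : Nat.nth Nat.Prime 0 = 2 := by
      have := Nat.nth_count (p := Nat.Prime) (n := 2) (by norm_num)
      rwa [show Nat.count Nat.Prime 2 = 0 by decide] at this
    have n1 : Nat.nth Nat.Prime 1 = 3 := by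
      have := Nat.nth_count (p := Nat.Prime) (n := 3) (by norm_num)
      rwa [show Nat.count Nat.Prime 3 = 1 by decide] at this
    have n2 : Nat.nth Nat.Prime 2 = 5 := by
      have := Nat.nth_count (p := Nat.Prime) (n := 5) (by norm_num)
      rwa [show Nat.count Nat.Prime 5 = 2 by decide] at this
    have n3 : Nat.nth Nat.Prime 3 = 7 := by
      have := Nat.nth_count (p := Nat.Prime) (n := 7) (by norm_num)
      rwa [show Nat.count Nat.Prime 7 = 3 by decide] at this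
    show psum 4 = 17
    unfold psum
    simp [Finset.sum_range_succ, n0, n1, n2, n3]
  · refine (card_filter_le _ _).trans ?_
    simp

end Pool.Agent.Helper52.PS
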