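import Mathlib
import Pool.Agent.Helper52.PS.Chain

set_option autoImplicit false

open Finset

namespace Pool.Agent.Helper52.PS

theorem log_n_ge : (65804 / 3000 : ℝ) * Real.log 2 ≤ Real.log 4008615 := by
  have h : (2 : ℝ) ^ 65804 ≤ (4008615 : ℝ) ^ 3000 := by
    have : Nat.ble (2 ^ 65804) (4008615 ^ 3000) = true := by decide +kernel
    exact_mod_cast Nat.le_of_ble_eq_true this
  have h2 := Real.log_le_log (by positivity) h
  rw [Real.log_pow, Real.log_pow] at h2
  push_cast at h2
  linarith

theorem log_M_le : Real.log 252510 ≤ (17946 / 1000 : ℝ) * Real.log 2 := by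
  have h : (252510 : ℝ) ^ 1000 ≤ (2 : ℝ) ^ 17946 := by
    have : Nat.ble (252510 ^ 1000) (2 ^ 17946) = true := by decide +kernel
    exact_mod_cast Nat.le_of_ble_eq_true this
  have h2 := Real.log_le_log (by positivity) h
  rw [Real.log_pow, Real.log_pow] at h2
  push_cast at h2
  linarith

theorem key_ineq : (252510 : ℝ) * Real.log 252510 <
    4 * 4008615 ^ 5 * (Real.log 4008615) ^ 2 / (551974495875755 : ℝ) ^ 2 := by
  have l1 := Real.log_two_gt_d9
  have l2 := Real.log_two_lt_d9
  have a1 : Real.log 252510 ≤ 12.4393 := by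
    have := log_M_le
    nlinarith
  have a2 : (15.2037 : ℝ) ≤ Real.log 4008615 := by
    have := log_n_ge
    nlinarith
  have a3 : (15.2037 : ℝ) ^ 2 ≤ (Real.log 4008615) ^ 2 := by
    apply pow_le_pow_left₀ (by norm_num) a2
  calc (252510 : ℝ) * Real.log 252510 ≤ 252510 * 12.4393 := by nlinarith
    _ < 4 * 4008615 ^ 5 * (15.2037 : ℝ) ^ 2 / (551974495875755 : ℝ) ^ 2 := by norm_num
    _ ≤ _ := by gcongr

/-- `x log x` is increasing on `[1, ∞)` -/
theorem xlogx_mono {x y : ℝ} (hx : 1 < x) (hxy : x ≤ y) : x * Real.log x ≤ y * Real.log y := by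
  have h1 : Real.log x ≤ Real.log y := Real.log_le_log (by linarith) hxy
  have h2 : 0 ≤ Real.log x := (Real.log_pos hx).le
  exact mul_le_mul hxy h1 h2 (by linarith)

theorem exists_xlogx {c : ℝ} (hc : 0 < c) : ∃ x : ℝ, 1 < x ∧ x * Real.log x = c := by
  -- intermediate value theorem on `[1, 1 + exp c]`
  have hcont : ContinuousOn (fun x : ℝ => x * Real.log x) (Set.Icc 1 (Real.exp (1 + c))) := by
    apply ContinuousOn.mul continuousOn_id
    apply Real.continuousOn_log.mono
    intro x hx
    simp only [Set.mem_compl_iff, Set.mem_singleton_iff]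
    linarith [hx.1]
  have hle : (1 : ℝ) ≤ Real.exp (1 + c) := by
    have := Real.add_one_le_exp (1 + c)
    linarith
  have hmem : c ∈ Set.Icc ((1 : ℝ) * Real.log 1) (Real.exp (1 + c) * Real.log (Real.exp (1 + c))) := by
    constructor
    · simp [hc.le]
    · rw [Real.log_exp]
      nlinarith
  obtain ⟨x, hx, hxc⟩ := intermediate_value_Icc hle hcont hmem
  refine ⟨x, ?_, hxc⟩
  rcases lt_or_eq_of_le hx.1 with h | h
  · exact h
  · exfalso
    simp only at hxc
    rw [← h] at hxc
    simp at hxc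
    linarith

end Pool.Agent.Helper52.PS
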