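import Pool.Agent.Helper52.PS.Defs

set_option autoImplicit false

namespace Pool.Agent.Helper52.PS

theorem r0 : run 110 2 3277794962652314745090 = 324265256689577945627572 := by decide +kernel

theorem r1 : run 110 2 324265256689577945627572 = 1230378151519725679868492 := by decide +kernel

theorem r2 : run 110 2 1230378151519725679868492 = 2758614393690985909949870 := by decide +kernel

theorem r3 : run 110 2 2758614393690985909949870 = 4930073293414421530035100 := by decide +kernel

theorem r4 : run 110 2 4930073293414421530035100 = 7759962732012519549631812 := by decide +kernel

theorem r5 : run 110 2 7759962732012519549631812 = 11259507228432004274963268 := by decide +kernel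

theorem r6 : run 110 2 11259507228432004274963268 = 15438841027437615339704568 := by decide +kernel

theorem r7 : run 110 2 15438841027437615339704568 = 20305356055419803286202290 := by decide +kernel

end Pool.Agent.Helper52.PS
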