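import Pool.Agent.Helper52.PS.Defs

set_option autoImplicit false

namespace Pool.Agent.Helper52.PS

theorem r8 : run 110 2 20305356055419803286202290 = 25865915996369054690985602 := by decide +kernel

theorem r9 : run 110 2 25865915996369054690985602 = 32128327613933526980438764 := by decide +kernel

theorem r10 : run 110 2 32128327613933526980438764 = 39096042240561781397131802 := by decide +kernel

theorem r11 : run 110 2 39096042240561781397131802 = 46773942946371014601276974 := by decide +kernel

theorem r12 : run 110 2 46773942946371014601276974 = 55167695428577450340381896 := by decide +kernel

theorem r13 : run 110 2 55167695428577450340381896 = 64283159728794984918740038 := by decide +kernel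

theorem r14 : run 110 2 64283159728794984918740038 = 74121452716650267524326700 := by decide +kernel

theorem r15 : run 110 2 74121452716650267524326700 = 84686308438058412553331472 := by decide +kernel

end Pool.Agent.Helper52.PS
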