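import Pool.Agent.Helper52.PS.Defs

set_option autoImplicit false

namespace Pool.Agent.Helper52.PS

theorem r16 : run 110 2 84686308438058412553331472 = 95983086890959506215265862 := by decide +kernel

theorem r17 : run 110 2 95983086890959506215265862 = 108011210528107833104459968 := by decide +kernel

theorem r18 : run 110 2 108011210528107833104459968 = 120776621605454352183850094 := by decide +kernel

theorem r19 : run 110 2 120776621605454352183850094 = 134284670093111636885306450 := by decide +kernel

theorem r20 : run 110 2 134284670093111636885306450 = 148533343719152826086853364 := by decide +kernel

theorem r21 : run 110 2 148533343719152826086853364 = 163526908442326694994320886 := by decide +kernel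

theorem r22 : run 110 2 163526908442326694994320886 = 179268532023116495419748588 := by decide +kernel

theorem r23 : run 110 2 179268532023116495419748588 = 195760720030167708436088324 := by decide +kernel

end Pool.Agent.Helper52.PS
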