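import Pool.Agent.Helper52.PS.Run00

set_option autoImplicit false

namespace Pool.Agent.Helper52.PS

theorem r24 : run 110 2 195760720030167708436088324 = 213003990957275953001683882 := by decide +kernel

theorem r25 : run 110 2 213003990957275953001683882 = 231001147329750090153423900 := by decide +kernel

theorem r26 : run 110 2 231001147329750090153423900 = 249751591157942724959571956 := by decide +kernel

theorem r27 : run 110 2 249751591157942724959571956 = 269260521260466889599069584 := by decide +kernel

theorem r28 : run 110 2 269260521260466889599069584 = 289529395616903327751917660 := by decide +kernel

theorem r29 : run 110 2 289529395616903327751917660 = 310563240186452352037286776 := by decide +kernel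

theorem r30 : run 110 2 310563240186452352037286776 = 332361860657367382633420298 := by decide +kernel

theorem r31 : run 110 2 332361860657367382633420298 = 354924927367844545880275942 := by decide +kernel

end Pool.Agent.Helper52.PS
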