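import Pool.Agent.Helper52.PS.Run01

set_option autoImplicit false

namespace Pool.Agent.Helper52.PS

theorem r32 : run 110 2 354924927367844545880275942 = 378254726156466475140998102 := by decide +kernel

theorem r33 : run 110 2 378254726156466475140998102 = 402355201721643170915454170 := by decide +kernel

theorem r34 : run 110 2 402355201721643170915454170 = 427224961144482923897403642 := by decide +kernel

theorem r35 : run 110 2 427224961144482923897403642 = 452863960625227568832503792 := by decide +kernel

theorem r36 : run 110 2 452863960625227568832503792 = 479273542809086171200490952 := by decide +kernel

theorem r37 : run 110 2 479273542809086171200490952 = 506458726740544735950224694 := by decide +kernel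

theorem r38 : run 110 2 506458726740544735950224694 = 534421690344057529326398932 := by decide +kernel

theorem r39 : run 110 2 534421690344057529326398932 = 563162259794189729415012972 := by decide +kernel

end Pool.Agent.Helper52.PS
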