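import Pool.Agent.Helper52.PS.Run02

set_option autoImplicit false

namespace Pool.Agent.Helper52.PS

theorem r40 : run 110 2 563162259794189729415012972 = 592681035883516517825566246 := by decide +kernel

theorem r41 : run 110 2 592681035883516517825566246 = 622981639770724783645133344 := by decide +kernel

theorem r42 : run 110 2 622981639770724783645133344 = 654063536687135774369465332 := by decide +kernel

theorem r43 : run 110 2 654063536687135774369465332 = 685926674227738325471753880 := by decide +kernel

theorem r44 : run 110 2 685926674227738325471753880 = 718570837575333812885761674 := by decide +kernel

theorem r45 : run 110 2 718570837575333812885761674 = 752001733298993925653719290 := by decide +kernel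

theorem r46 : run 110 2 752001733298993925653719290 = 786219353557951703933657652 := by decide +kernel

theorem r47 : run 110 2 786219353557951703933657652 = 821223893895688215701053822 := by decide +kernel

end Pool.Agent.Helper52.PS
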