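import Pool.Agent.Helper52.PS.Run03

set_option autoImplicit false

namespace Pool.Agent.Helper52.PS

theorem r48 : run 110 2 821223893895688215701053822 = 857016498194420676185856912 := by decide +kernel

theorem r49 : run 110 2 857016498194420676185856912 = 893599344391551181502537460 := by decide +kernel

theorem r50 : run 110 2 893599344391551181502537460 = 930975882395264879867666260 := by decide +kernel

theorem r51 : run 110 2 930975882395264879867666260 = 969145285804037363619226230 := by decide +kernel

theorem r52 : run 110 2 969145285804037363619226230 = 1008104775242187717388378184 := by decide +kernel

theorem r53 : run 110 2 1008104775242187717388378184 = 1047855429737846741246730776 := by decide +kernel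

theorem r54 : run 110 2 1047855429737846741246730776 = 1088400326803864737485956626 := by decide +kernel

theorem r55 : run 110 2 1088400326803864737485956626 = 1129739639519767842689607758 := by decide +kernel

end Pool.Agent.Helper52.PS
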