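import Pool.Agent.Helper52.PS.Run04

set_option autoImplicit false

namespace Pool.Agent.Helper52.PS

theorem r56 : run 110 2 1129739639519767842689607758 = 1171876531419973990350762294 := by decide +kernel

theorem r57 : run 110 2 1171876531419973990350762294 = 1214809806706458334931841576 := by decide +kernel

theorem r58 : run 110 2 1214809806706458334931841576 = 1258540036204281200718986176 := by decide +kernel

theorem r59 : run 110 2 1258540036204281200718986176 = 1303068576797344803870770202 := by decide +kernel

theorem r60 : run 110 2 1303068576797344803870770202 = 1348398182736873609571847392 := by decide +kernel

theorem r61 : run 110 2 1348398182736873609571847392 = 1394525649562551011426374882 := by decide +kernel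

theorem r62 : run 110 2 1394525649562551011426374882 = 1441455752397714763420950316 := by decide +kernel

theorem r63 : run 110 2 1441455752397714763420950316 = 1489185541772481454714236218 := by decide +kernel

end Pool.Agent.Helper52.PS
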