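import Pool.Agent.Helper52.PS.Run05

set_option autoImplicit false

namespace Pool.Agent.Helper52.PS

theorem r64 : run 110 2 1489185541772481454714236218 = 1537723720186065841319116856 := by decide +kernel

theorem r65 : run 110 2 1537723720186065841319116856 = 1587067613393690829160991722 := by decide +kernel

theorem r66 : run 110 2 1587067613393690829160991722 = 1637218592919898092622290532 := by decide +kernel

theorem r67 : run 110 2 1637218592919898092622290532 = 1688174009407365058227530458 := by decide +kernel

theorem r68 : run 110 2 1688174009407365058227530458 = 1739934078294224123702164526 := by decide +kernel

theorem r69 : run 110 2 1739934078294224123702164526 = 1792503742491609633293700632 := by decide +kernel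

theorem r70 : run 110 2 1792503742491609633293700632 = 1845879077431638938145840122 := by decide +kernel

theorem r71 : run 110 2 1845879077431638938145840122 = 1900063139237878880977039360 := by decide +kernel

end Pool.Agent.Helper52.PS
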