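import Pool.Agent.Helper52.PS.Run06

set_option autoImplicit false

namespace Pool.Agent.Helper52.PS

theorem r72 : run 110 2 1900063139237878880977039360 = 1955056077171443057572414458 := by decide +kernel

theorem r73 : run 110 2 1955056077171443057572414458 = 2010861794232475496479119958 := by decide +kernel

theorem r74 : run 110 2 2010861794232475496479119958 = 2067479347485433699353898654 := by decide +kernel

theorem r75 : run 110 2 2067479347485433699353898654 = 2124910633911219978083599564 := by decide +kernel

theorem r76 : run 110 2 2124910633911219978083599564 = 2183151239835269549190601436 := by decide +kernel

theorem r77 : run 110 2 2183151239835269549190601436 = 2242204473413843419831480408 := by decide +kernel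

theorem r78 : run 110 2 2242204473413843419831480408 = 2302072506944148093665774058 := by decide +kernel

theorem r79 : run 110 2 2302072506944148093665774058 = 2362755744685048719212209096 := by decide +kernel

end Pool.Agent.Helper52.PS
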