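import Pool.Agent.Helper52.PS.Run07

set_option autoImplicit false

namespace Pool.Agent.Helper52.PS

theorem r80 : run 110 2 2362755744685048719212209096 = 2424254909411368192203177138 := by decide +kernel

theorem r81 : run 110 2 2424254909411368192203177138 = 2486567988698057266065151360 := by decide +kernel

theorem r82 : run 110 2 2486567988698057266065151360 = 2549694255332558560903358854 := by decide +kernel

theorem r83 : run 110 2 2549694255332558560903358854 = 2613638689639660314608289806 := by decide +kernel

theorem r84 : run 110 2 2613638689639660314608289806 = 2678396807937467451167186720 := by decide +kernel

theorem r85 : run 110 2 2678396807937467451167186720 = 2743970650898731968922320538 := by decide +kernel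

theorem r86 : run 110 2 2743970650898731968922320538 = 2810365589373380202159298170 := by decide +kernel

theorem r87 : run 110 2 2810365589373380202159298170 = 2877579537249028730820869272 := by decide +kernel

end Pool.Agent.Helper52.PS
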