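import Pool.Agent.Helper52.PS.Run08

set_option autoImplicit false

namespace Pool.Agent.Helper52.PS

theorem r88 : run 110 2 2877579537249028730820869272 = 2945613681179143387938887018 := by decide +kernel

theorem r89 : run 110 2 2945613681179143387938887018 = 3014470439623182715522414250 := by decide +kernel

theorem r90 : run 110 2 3014470439623182715522414250 = 3084146930946732694561609128 := by decide +kernel

theorem r91 : run 110 2 3084146930946732694561609128 = 3154645830912846422301947766 := by decide +kernel

theorem r92 : run 110 2 3154645830912846422301947766 = 3225968859613980686782208406 := by decide +kernel

theorem r93 : run 110 2 3225968859613980686782208406 = 3298113000971450635713641006 := by decide +kernel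

theorem r94 : run 110 2 3298113000971450635713641006 = 3371084266642240464514539110 := by decide +kernel

theorem r95 : run 110 2 3371084266642240464514539110 = 3444877055111621084122758644 := by decide +kernel

end Pool.Agent.Helper52.PS
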