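import Pool.Agent.Helper52.PS.Run09

set_option autoImplicit false

namespace Pool.Agent.Helper52.PS

theorem r96 : run 110 2 3444877055111621084122758644 = 3519491950943446440124620502 := by decide +kernel

theorem r97 : run 110 2 3519491950943446440124620502 = 3594934107701345726364092502 := by decide +kernel

theorem r98 : run 110 2 3594934107701345726364092502 = 3671204584400015907761089574 := by decide +kernel

theorem r99 : run 110 2 3671204584400015907761089574 = 3748298723985301823589077032 := by decide +kernel

theorem r100 : run 110 2 3748298723985301823589077032 = 3826219915897245264752260138 := by decide +kernel

theorem r101 : run 110 2 3826219915897245264752260138 = 3904970015668995254286359208 := by decide +kernel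

theorem r102 : run 110 2 3904970015668995254286359208 = 3984546887698112114741248836 := by decide +kernel

theorem r103 : run 110 2 3984546887698112114741248836 = 4064951836362718848033220140 := by decide +kernel

end Pool.Agent.Helper52.PS
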