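import Pool.Agent.Helper52.PS.Run10

set_option autoImplicit false

namespace Pool.Agent.Helper52.PS

theorem r104 : run 110 2 4064951836362718848033220140 = 4146182523034726859560405688 := by decide +kernel

theorem r105 : run 110 2 4146182523034726859560405688 = 4228240884205680927320487794 := by decide +kernel

theorem r106 : run 110 2 4228240884205680927320487794 = 4311135633824634906204316876 := by decide +kernel

theorem r107 : run 110 2 4311135633824634906204316876 = 4394862288793472828607925582 := by decide +kernel

theorem r108 : run 110 2 4394862288793472828607925582 = 4479417484523015628130153764 := by decide +kernel

theorem r109 : run 110 2 4479417484523015628130153764 = 4564801966653987409643986366 := by decide +kernel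

theorem r110 : run 110 2 4564801966653987409643986366 = 4651018557742582288097724196 := by decide +kernel

theorem r111 : run 110 2 4651018557742582288097724196 = 4738066327438003988377056042 := by decide +kernel

end Pool.Agent.Helper52.PS
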