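import Pool.Agent.Helper52.PS.Run11

set_option autoImplicit false

namespace Pool.Agent.Helper52.PS

theorem r112 : run 110 2 4738066327438003988377056042 = 4825947553205517535582789950 := by decide +kernel

theorem r113 : run 110 2 4825947553205517535582789950 = 4914664049237479153707388464 := by decide +kernel

theorem r114 : run 110 2 4914664049237479153707388464 = 5004213279742712165522569614 := by decide +kernel

theorem r115 : run 110 2 5004213279742712165522569614 = 5094592941973306202050060510 := by decide +kernel

theorem r116 : run 110 2 5094592941973306202050060510 = 5185807301412880274318447300 := by decide +kernel

theorem r117 : run 110 2 5185807301412880274318447300 = 5277854477605365040214162882 := by decide +kernel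

theorem r118 : run 110 2 5277854477605365040214162882 = 5370739222532914498301275018 := by decide +kernel

theorem r119 : run 110 2 5370739222532914498301275018 = 5464462849067440595766780060 := by decide +kernel

end Pool.Agent.Helper52.PS
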