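import Pool.Agent.Helper52.PS.Run12

set_option autoImplicit false

namespace Pool.Agent.Helper52.PS

theorem r120 : run 110 2 5464462849067440595766780060 = 5559026081880907554998325916 := by decide +kernel

theorem r121 : run 110 2 5559026081880907554998325916 = 5654425657136415367945093444 := by decide +kernel

theorem r122 : run 110 2 5654425657136415367945093444 = 5750659507414333849311440602 := by decide +kernel

theorem r123 : run 110 2 5750659507414333849311440602 = 5847730796467505534919008134 := by decide +kernel

theorem r124 : run 110 2 5847730796467505534919008134 = 5945641649971873598235988532 := by decide +kernel

theorem r125 : run 110 2 5945641649971873598235988532 = 6044386808800559481639878338 := by decide +kernel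

theorem r126 : run 110 2 6044386808800559481639878338 = 6143972215297334376824222544 := by decide +kernel

theorem r127 : run 110 2 6143972215297334376824222544 = 6244394668809675137101996368 := by decide +kernel

end Pool.Agent.Helper52.PS
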