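import Pool.Agent.Helper52.PS.Run13

set_option autoImplicit false

namespace Pool.Agent.Helper52.PS

theorem r128 : run 110 2 6244394668809675137101996368 = 6345656648313597354299201876 := by decide +kernel

theorem r129 : run 110 2 6345656648313597354299201876 = 6447760503194037338092407404 := by decide +kernel

theorem r130 : run 110 2 6447760503194037338092407404 = 6550702115622956391048183288 := by decide +kernel

theorem r131 : run 110 2 6550702115622956391048183288 = 6654485412141939690664882154 := by decide +kernel

theorem r132 : run 110 2 6654485412141939690664882154 = 6759109518759362608849970478 := by decide +kernel

theorem r133 : run 110 2 6759109518759362608849970478 = 6864573795252509309010106726 := by decide +kernel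

theorem r134 : run 110 2 6864573795252509309010106726 = 6970878965062172481506660436 := by decide +kernel

theorem r135 : run 110 2 6970878965062172481506660436 = 7078028952502907277902726986 := by decide +kernel

end Pool.Agent.Helper52.PS
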