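import Pool.Agent.Helper52.PS.Run14

set_option autoImplicit false

namespace Pool.Agent.Helper52.PS

theorem r136 : run 110 2 7078028952502907277902726986 = 7186023577514045204537884960 := by decide +kernel

theorem r137 : run 110 2 7186023577514045204537884960 = 7294862492333815483471017054 := by decide +kernel

theorem r138 : run 110 2 7294862492333815483471017054 = 7404545967211972742594441100 := by decide +kernel

theorem r139 : run 110 2 7404545967211972742594441100 = 7515072749871412150075368788 := by decide +kernel

theorem r140 : run 110 2 7515072749871412150075368788 = 7626438788496732461065769684 := by decide +kernel

theorem r141 : run 110 2 7626438788496732461065769684 = 7738644449121934046755981946 := by decide +kernel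

theorem r142 : run 110 2 7738644449121934046755981946 = 7851694053292007022388183744 := by decide +kernel

theorem r143 : run 110 2 7851694053292007022388183744 = 7965586685586713794131097680 := by decide +kernel

end Pool.Agent.Helper52.PS
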