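import Pool.Agent.Helper52.PS.Run15

set_option autoImplicit false

namespace Pool.Agent.Helper52.PS

theorem r144 : run 110 2 7965586685586713794131097680 = 8080323462464164569451918334 := by decide +kernel

theorem r145 : run 110 2 8080323462464164569451918334 = 8195911542370634320614028110 := by decide +kernel

theorem r146 : run 110 2 8195911542370634320614028110 = 8312347388030356918026365996 := by decide +kernel

theorem r147 : run 110 2 8312347388030356918026365996 = 8429633502873893916446517020 := by decide +kernel

theorem r148 : run 110 2 8429633502873893916446517020 = 8547765971867483121111196236 := by decide +kernel

theorem r149 : run 110 2 8547765971867483121111196236 = 8666745401266566048476978626 := by decide +kernel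

theorem r150 : run 110 2 8666745401266566048476978626 = 8786572572777818541586765952 := by decide +kernel

theorem r151 : run 110 2 8786572572777818541586765952 = 8907246288163390626173374934 := by decide +kernel

end Pool.Agent.Helper52.PS
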