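import Pool.Agent.Helper52.PS.Run16

set_option autoImplicit false

namespace Pool.Agent.Helper52.PS

theorem r152 : run 110 2 8907246288163390626173374934 = 9028766788214991773941157732 := by decide +kernel

theorem r153 : run 110 2 9028766788214991773941157732 = 9151137287307613199664696588 := by decide +kernel

theorem r154 : run 110 2 9151137287307613199664696588 = 9274357376064611704381360270 := by decide +kernel

theorem r155 : run 110 2 9274357376064611704381360270 = 9398422813469299145948742076 := by decide +kernel

theorem r156 : run 110 2 9398422813469299145948742076 = 9523339459564415313330225798 := by decide +kernel

theorem r157 : run 110 2 9523339459564415313330225798 = 9649104433467647323676229712 := by decide +kernel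

theorem r158 : run 110 2 9649104433467647323676229712 = 9775725123437203721640593052 := by decide +kernel

theorem r159 : run 110 2 9775725123437203721640593052 = 9903204309527120082105093056 := by decide +kernel

end Pool.Agent.Helper52.PS
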