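import Pool.Agent.Helper52.PS.Run17

set_option autoImplicit false

namespace Pool.Agent.Helper52.PS

theorem r160 : run 110 2 9903204309527120082105093056 = 10031536185033601755506592104 := by decide +kernel

theorem r161 : run 110 2 10031536185033601755506592104 = 10160724063862880542913743798 := by decide +kernel

theorem r162 : run 110 2 10160724063862880542913743798 = 10290762210708978491844971558 := by decide +kernel

theorem r163 : run 110 2 10290762210708978491844971558 = 10421653894176981699455044386 := by decide +kernel

theorem r164 : run 110 2 10421653894176981699455044386 = 10553396630504674071809018586 := by decide +kernel

theorem r165 : run 110 2 10553396630504674071809018586 = 10685992257053180157245934242 := by decide +kernel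

theorem r166 : run 110 2 10685992257053180157245934242 = 10819442009274719506073504788 := by decide +kernel

theorem r167 : run 110 2 10819442009274719506073504788 = 10953745271880192693377781682 := by decide +kernel

end Pool.Agent.Helper52.PS
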