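import Pool.Agent.Helper52.PS.Run18

set_option autoImplicit false

namespace Pool.Agent.Helper52.PS

theorem r168 : run 110 2 10953745271880192693377781682 = 11088899684743578288539880932 := by decide +kernel

theorem r169 : run 110 2 11088899684743578288539880932 = 11224908564665796753389278344 := by decide +kernel

theorem r170 : run 110 2 11224908564665796753389278344 = 11361775651347595539468508090 := by decide +kernel

theorem r171 : run 110 2 11361775651347595539468508090 = 11499497141656152357318645572 := by decide +kernel

theorem r172 : run 110 2 11499497141656152357318645572 = 11638072500264905038246894444 := by decide +kernel

theorem r173 : run 110 2 11638072500264905038246894444 = 11777502999945151482615979646 := by decide +kernel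

theorem r174 : run 110 2 11777502999945151482615979646 = 11917788581978959741253182652 := by decide +kernel

theorem r175 : run 110 2 11917788581978959741253182652 = 12058932721091037775689770898 := by decide +kernel

end Pool.Agent.Helper52.PS
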