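import Pool.Agent.Helper52.PS.Run19

set_option autoImplicit false

namespace Pool.Agent.Helper52.PS

theorem r176 : run 110 2 12058932721091037775689770898 = 12200928284045698382292378696 := by decide +kernel

theorem r177 : run 110 2 12200928284045698382292378696 = 12343777460804391715790940938 := by decide +kernel

theorem r178 : run 110 2 12343777460804391715790940938 = 12487485042742257732270681550 := by decide +kernel

theorem r179 : run 110 2 12487485042742257732270681550 = 12632044172622208811467501788 := by decide +kernel

theorem r180 : run 110 2 12632044172622208811467501788 = 12777461155598565046736057582 := by decide +kernel

theorem r181 : run 110 2 12777461155598565046736057582 = 12923730555061527229952063108 := by decide +kernel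

theorem r182 : run 110 2 12923730555061527229952063108 = 13070853504850285394692798270 := by decide +kernel

theorem r183 : run 110 2 13070853504850285394692798270 = 13218834746641068764250079832 := by decide +kernel

end Pool.Agent.Helper52.PS
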