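import Pool.Agent.Helper52.PS.Run20

set_option autoImplicit false

namespace Pool.Agent.Helper52.PS

theorem r184 : run 110 2 13218834746641068764250079832 = 13367678592459946708644989066 := by decide +kernel

theorem r185 : run 110 2 13367678592459946708644989066 = 13517379454360409915638975466 := by decide +kernel

theorem r186 : run 110 2 13517379454360409915638975466 = 13667939053898585046529088056 := by decide +kernel

theorem r187 : run 110 2 13667939053898585046529088056 = 13819357731347319657751091522 := by decide +kernel

theorem r188 : run 110 2 13819357731347319657751091522 = 13971636549895021687412565208 := by decide +kernel

theorem r189 : run 110 2 13971636549895021687412565208 = 14124774931452887539683601968 := by decide +kernel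

theorem r190 : run 110 2 14124774931452887539683601968 = 14278775531687219954418595794 := by decide +kernel

theorem r191 : run 110 2 14278775531687219954418595794 = 14433641269723210997284324398 := by decide +kernel

end Pool.Agent.Helper52.PS
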