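import Pool.Agent.Helper52.PS.Run21

set_option autoImplicit false

namespace Pool.Agent.Helper52.PS

theorem r192 : run 110 2 14433641269723210997284324398 = 14589367059669445371186205784 := by decide +kernel

theorem r193 : run 110 2 14589367059669445371186205784 = 14745957259140242629525297312 := by decide +kernel

theorem r194 : run 110 2 14745957259140242629525297312 = 14903403599608877613270457938 := by decide +kernel

theorem r195 : run 110 2 14903403599608877613270457938 = 15061711786942986376211851740 := by decide +kernel

theorem r196 : run 110 2 15061711786942986376211851740 = 15220883618408145954949528040 := by decide +kernel

theorem r197 : run 110 2 15220883618408145954949528040 = 15380922244886474092180603780 := by decide +kernel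

theorem r198 : run 110 2 15380922244886474092180603780 = 15541823043762279019405807410 := by decide +kernel

theorem r199 : run 110 2 15541823043762279019405807410 = 15703583791800953568017127718 := by decide +kernel

end Pool.Agent.Helper52.PS
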