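import Pool.Agent.Helper52.PS.Run22

set_option autoImplicit false

namespace Pool.Agent.Helper52.PS

theorem r200 : run 110 2 15703583791800953568017127718 = 15866211764304235204498532642 := by decide +kernel

theorem r201 : run 110 2 15866211764304235204498532642 = 16029702393478187445118907366 := by decide +kernel

theorem r202 : run 110 2 16029702393478187445118907366 = 16194057174718859740587540536 := by decide +kernel

theorem r203 : run 110 2 16194057174718859740587540536 = 16359275812853577078167587582 := by decide +kernel

theorem r204 : run 110 2 16359275812853577078167587582 = 16525354521812530307065959492 := by decide +kernel

theorem r205 : run 110 2 16525354521812530307065959492 = 16692297796940248647790977548 := by decide +kernel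

theorem r206 : run 110 2 16692297796940248647790977548 = 16860103680363785161582766900 := by decide +kernel

theorem r207 : run 110 2 16860103680363785161582766900 = 17028768257141138466557817310 := by decide +kernel

end Pool.Agent.Helper52.PS
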