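import Pool.Agent.Helper52.PS.Run23

set_option autoImplicit false

namespace Pool.Agent.Helper52.PS

theorem r208 : run 110 2 17028768257141138466557817310 = 17198294300225856377242385862 := by decide +kernel

theorem r209 : run 110 2 17198294300225856377242385862 = 17368684827536907141780441828 := by decide +kernel

theorem r210 : run 110 2 17368684827536907141780441828 = 17539941676660595264109746622 := by decide +kernel

theorem r211 : run 110 2 17539941676660595264109746622 = 17712066667458745985099147848 := by decide +kernel

theorem r212 : run 110 2 17712066667458745985099147848 = 17885057498241231886169421518 := by decide +kernel

theorem r213 : run 110 2 17885057498241231886169421518 = 18058912536497098134903308986 := by decide +kernel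

theorem r214 : run 110 2 18058912536497098134903308986 = 18233634642711854921653638666 := by decide +kernel

theorem r215 : run 110 2 18233634642711854921653638666 = 18409223476373963894433178676 := by decide +kernel

end Pool.Agent.Helper52.PS
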