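import Pool.Agent.Helper52.PS.Run24

set_option autoImplicit false

namespace Pool.Agent.Helper52.PS

theorem r216 : run 110 2 18409223476373963894433178676 = 18585679668821101782502896862 := by decide +kernel

theorem r217 : run 110 2 18585679668821101782502896862 = 18763006492883294099282200458 := by decide +kernel

theorem r218 : run 110 2 18763006492883294099282200458 = 18941201108190358375036198234 := by decide +kernel

theorem r219 : run 110 2 18941201108190358375036198234 = 19120267925657278732577091336 := by decide +kernel

theorem r220 : run 110 2 19120267925657278732577091336 = 19300202878016803577094520242 := by decide +kernel

theorem r221 : run 110 2 19300202878016803577094520242 = 19481007878840533289701758324 := by decide +kernel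

theorem r222 : run 110 2 19481007878840533289701758324 = 19662682378386446257331364866 := by decide +kernel

theorem r223 : run 110 2 19662682378386446257331364866 = 19845225819809781299767374680 := by decide +kernel

end Pool.Agent.Helper52.PS
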