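import Pool.Agent.Helper52.PS.Run25

set_option autoImplicit false

namespace Pool.Agent.Helper52.PS

theorem r224 : run 110 2 19845225819809781299767374680 = 20028635628818088519217119626 := by decide +kernel

theorem r225 : run 110 2 20028635628818088519217119626 = 20212908485621183189104365748 := by decide +kernel

theorem r226 : run 110 2 20212908485621183189104365748 = 20398049504851327531716583274 := by decide +kernel

theorem r227 : run 110 2 20398049504851327531716583274 = 20584060012963289939520107484 := by decide +kernel

theorem r228 : run 110 2 20584060012963289939520107484 = 20770941332429530850048165916 := by decide +kernel

theorem r229 : run 110 2 20770941332429530850048165916 = 20958691556668599445766854318 := by decide +kernel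

theorem r230 : run 110 2 20958691556668599445766854318 = 21147309975124501580690777652 := by decide +kernel

theorem r231 : run 110 2 21147309975124501580690777652 = 21336800980636461302826139312 := by decide +kernel

end Pool.Agent.Helper52.PS
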