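import Pool.Agent.Helper52.PS.Run26

set_option autoImplicit false

namespace Pool.Agent.Helper52.PS

theorem r232 : run 110 2 21336800980636461302826139312 = 21527164881501768772939125896 := by decide +kernel

theorem r233 : run 110 2 21527164881501768772939125896 = 21718397398690540260487799602 := by decide +kernel

theorem r234 : run 110 2 21718397398690540260487799602 = 21910500660995209871148627378 := by decide +kernel

theorem r235 : run 110 2 21910500660995209871148627378 = 22103471709362797145042340224 := by decide +kernel

theorem r236 : run 110 2 22103471709362797145042340224 = 22297314967884129832326259280 := by decide +kernel

theorem r237 : run 110 2 22297314967884129832326259280 = 22492032677818909633630271460 := by decide +kernel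

theorem r238 : run 110 2 22492032677818909633630271460 = 22687622693096642471528827992 := by decide +kernel

theorem r239 : run 110 2 22687622693096642471528827992 = 22884083695545805544842894740 := by decide +kernel

end Pool.Agent.Helper52.PS
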