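import Pool.Agent.Helper52.PS.Run27

set_option autoImplicit false

namespace Pool.Agent.Helper52.PS

theorem r240 : run 110 2 22884083695545805544842894740 = 23081416838566973887692419564 := by decide +kernel

theorem r241 : run 110 2 23081416838566973887692419564 = 23279620763844100587114187402 := by decide +kernel

theorem r242 : run 110 2 23279620763844100587114187402 = 23478703169929467855862195504 := by decide +kernel

theorem r243 : run 110 2 23478703169929467855862195504 = 23678659658204607438871001688 := by decide +kernel

theorem r244 : run 110 2 23678659658204607438871001688 = 23879488101212965461342982218 := by decide +kernel

theorem r245 : run 110 2 23879488101212965461342982218 = 24081193815083480963992137014 := by decide +kernel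

theorem r246 : run 110 2 24081193815083480963992137014 = 24283776177593199953935712136 := by decide +kernel

theorem r247 : run 110 2 24283776177593199953935712136 = 24487231244075800531042655512 := by decide +kernel

end Pool.Agent.Helper52.PS
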