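import Pool.Agent.Helper52.PS.Run28

set_option autoImplicit false

namespace Pool.Agent.Helper52.PS

theorem r248 : run 110 2 24487231244075800531042655512 = 24691563230847415739778395668 := by decide +kernel

theorem r249 : run 110 2 24691563230847415739778395668 = 24896766829827602034230856080 := by decide +kernel

theorem r250 : run 110 2 24896766829827602034230856080 = 25102846408022373044755374940 := by decide +kernel

theorem r251 : run 110 2 25102846408022373044755374940 = 25309799664650765523521615014 := by decide +kernel

theorem r252 : run 110 2 25309799664650765523521615014 = 25517626509031675068685963102 := by decide +kernel

theorem r253 : run 110 2 25517626509031675068685963102 = 25726323985922166512103907418 := by decide +kernel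

theorem r254 : run 110 2 25726323985922166512103907418 = 25935899129956679745043070804 := by decide +kernel

theorem r255 : run 110 2 25935899129956679745043070804 = 26146349579170598803506073560 := by decide +kernel

end Pool.Agent.Helper52.PS
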