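import Pool.Agent.Helper52.PS.Run29

set_option autoImplicit false

namespace Pool.Agent.Helper52.PS

theorem r256 : run 110 2 26146349579170598803506073560 = 26357670408404290258839382406 := by decide +kernel

theorem r257 : run 110 2 26357670408404290258839382406 = 26569868249437326027155653126 := by decide +kernel

theorem r258 : run 110 2 26569868249437326027155653126 = 26782938468370808424874432824 := by decide +kernel

theorem r259 : run 110 2 26782938468370808424874432824 = 26996886101878001268465628238 := by decide +kernel

theorem r260 : run 110 2 26996886101878001268465628238 = 27211714018244649275775783142 := by decide +kernel

theorem r261 : run 110 2 27211714018244649275775783142 = 27427420316754114273810557922 := by decide +kernel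

theorem r262 : run 110 2 27427420316754114273810557922 = 27644003717653393035849581884 := by decide +kernel

theorem r263 : run 110 2 27644003717653393035849581884 = 27861463687405541330023013014 := by decide +kernel

end Pool.Agent.Helper52.PS
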