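import Pool.Agent.Helper52.PS.Run30

set_option autoImplicit false

namespace Pool.Agent.Helper52.PS

theorem r264 : run 110 2 27861463687405541330023013014 = 28079797751572483119169827500 := by decide +kernel

theorem r265 : run 110 2 28079797751572483119169827500 = 28299008440161084330589164216 := by decide +kernel

theorem r266 : run 110 2 28299008440161084330589164216 = 28519101212436502108093132984 := by decide +kernel

theorem r267 : run 110 2 28519101212436502108093132984 = 28740074541358144260055846178 := by decide +kernel

theorem r268 : run 110 2 28740074541358144260055846178 = 28961925117851578414148937414 := by decide +kernel

theorem r269 : run 110 2 28961925117851578414148937414 = 29184653246818380644581933874 := by decide +kernel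

theorem r270 : run 110 2 29184653246818380644581933874 = 29408261797912827023953764498 := by decide +kernel

theorem r271 : run 110 2 29408261797912827023953764498 = 29632746536615234818799287162 := by decide +kernel

end Pool.Agent.Helper52.PS
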