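import Pool.Agent.Helper52.PS.Run31

set_option autoImplicit false

namespace Pool.Agent.Helper52.PS

theorem r272 : run 110 2 29632746536615234818799287162 = 29858109557432134167059976834 := by decide +kernel

theorem r273 : run 110 2 29858109557432134167059976834 = 30084346812340154711207504422 := by decide +kernel

theorem r274 : run 110 2 30084346812340154711207504422 = 30311464662427760995575696870 := by decide +kernel

theorem r275 : run 110 2 30311464662427760995575696870 = 30539468099546704478540016576 := by decide +kernel

theorem r276 : run 110 2 30539468099546704478540016576 = 30768353625281091378650926972 := by decide +kernel

theorem r277 : run 110 2 30768353625281091378650926972 = 30998120479079905112370539160 := by decide +kernel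

theorem r278 : run 110 2 30998120479079905112370539160 = 31228765187879703044404085914 := by decide +kernel

theorem r279 : run 110 2 31228765187879703044404085914 = 31460289503173727410651177710 := by decide +kernel

end Pool.Agent.Helper52.PS
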