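import Pool.Agent.Helper52.PS.Run32

set_option autoImplicit false

namespace Pool.Agent.Helper52.PS

theorem r280 : run 110 2 31460289503173727410651177710 = 31692695894594150485714552352 := by decide +kernel

theorem r281 : run 110 2 31692695894594150485714552352 = 31925983761913598796122546006 := by decide +kernel

theorem r282 : run 110 2 31925983761913598796122546006 = 32160151623361663635984449914 := by decide +kernel

theorem r283 : run 110 2 32160151623361663635984449914 = 32395201330801623251917676144 := by decide +kernel

theorem r284 : run 110 2 32395201330801623251917676144 = 32631129768845354470344407364 := by decide +kernel

theorem r285 : run 110 2 32631129768845354470344407364 = 32867938604400617212913538210 := by decide +kernel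

theorem r286 : run 110 2 32867938604400617212913538210 = 33105624301886124728622641482 := by decide +kernel

theorem r287 : run 110 2 33105624301886124728622641482 = 33344191083830725746015703028 := by decide +kernel

end Pool.Agent.Helper52.PS
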