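import Pool.Agent.Helper52.PS.Run33

set_option autoImplicit false

namespace Pool.Agent.Helper52.PS

theorem r288 : run 110 2 33344191083830725746015703028 = 33583638934087326736345280646 := by decide +kernel

theorem r289 : run 110 2 33583638934087326736345280646 = 33823975474368918984840763436 := by decide +kernel

theorem r290 : run 110 2 33823975474368918984840763436 = 34065197662717445339072197742 := by decide +kernel

theorem r291 : run 110 2 34065197662717445339072197742 = 34307303003840348754565929710 := by decide +kernel

theorem r292 : run 110 2 34307303003840348754565929710 = 34550290903979113702410925280 := by decide +kernel

theorem r293 : run 110 2 34550290903979113702410925280 = 34794161444357848323637074712 := by decide +kernel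

theorem r294 : run 110 2 34794161444357848323637074712 = 35038916311210384449168406188 := by decide +kernel

theorem r295 : run 110 2 35038916311210384449168406188 = 35284549006599064519435260804 := by decide +kernel

end Pool.Agent.Helper52.PS
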