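import Pool.Agent.Helper52.PS.Run34

set_option autoImplicit false

namespace Pool.Agent.Helper52.PS

theorem r296 : run 110 2 35284549006599064519435260804 = 35531059661167121265304416346 := by decide +kernel

theorem r297 : run 110 2 35531059661167121265304416346 = 35778451569280230667522264390 := by decide +kernel

theorem r298 : run 110 2 35778451569280230667522264390 = 36026727079844821570256990664 := by decide +kernel

theorem r299 : run 110 2 36026727079844821570256990664 = 36275888728905961099325674794 := by decide +kernel

theorem r300 : run 110 2 36275888728905961099325674794 = 36525932324231641112164741086 := by decide +kernel

theorem r301 : run 110 2 36525932324231641112164741086 = 36776855703845216602798182676 := by decide +kernel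

theorem r302 : run 110 2 36776855703845216602798182676 = 37028662886973478958441165228 := by decide +kernel

theorem r303 : run 110 2 37028662886973478958441165228 = 37281353355497557262131499688 := by decide +kernel

end Pool.Agent.Helper52.PS
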