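import Pool.Agent.Helper52.PS.Run35

set_option autoImplicit false

namespace Pool.Agent.Helper52.PS

theorem r304 : run 110 2 37281353355497557262131499688 = 37534929694151497126513948676 := by decide +kernel

theorem r305 : run 110 2 37534929694151497126513948676 = 37789392644940491874446531130 := by decide +kernel

theorem r306 : run 110 2 37789392644940491874446531130 = 38044742392952353102432469086 := by decide +kernel

theorem r307 : run 110 2 38044742392952353102432469086 = 38300978895619620066681561802 := by decide +kernel

theorem r308 : run 110 2 38300978895619620066681561802 = 38558103290692296132289219340 := by decide +kernel

theorem r309 : run 110 2 38558103290692296132289219340 = 38816110440574264592843498744 := by decide +kernel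

theorem r310 : run 110 2 38816110440574264592843498744 = 39074998310566798337455490142 := by decide +kernel

theorem r311 : run 110 2 39074998310566798337455490142 = 39334773071193047273340448532 := by decide +kernel

end Pool.Agent.Helper52.PS
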