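import Pool.Agent.Helper52.PS.Run36

set_option autoImplicit false

namespace Pool.Agent.Helper52.PS

theorem r312 : run 110 2 39334773071193047273340448532 = 39595437237694825939799658802 := by decide +kernel

theorem r313 : run 110 2 39595437237694825939799658802 = 39856984358003076026978267008 := by decide +kernel

theorem r314 : run 110 2 39856984358003076026978267008 = 40119416491532842351264765390 := by decide +kernel

theorem r315 : run 110 2 40119416491532842351264765390 = 40382739955917356626188385762 := by decide +kernel

theorem r316 : run 110 2 40382739955917356626188385762 = 40646950553188713643976352348 := by decide +kernel

theorem r317 : run 110 2 40646950553188713643976352348 = 40912047173896404196411998918 := by decide +kernel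

theorem r318 : run 110 2 40912047173896404196411998918 = 41178025632115148493269903044 := by decide +kernel

theorem r319 : run 110 2 41178025632115148493269903044 = 41444895529212544359806390242 := by decide +kernel

end Pool.Agent.Helper52.PS
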