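import Pool.Agent.Helper52.PS.Run37

set_option autoImplicit false

namespace Pool.Agent.Helper52.PS

theorem r320 : run 110 2 41444895529212544359806390242 = 41712652556276198612468068444 := by decide +kernel

theorem r321 : run 110 2 41712652556276198612468068444 = 41981288978174466957843173202 := by decide +kernel

theorem r322 : run 110 2 41981288978174466957843173202 = 42250814050458731499182406064 := by decide +kernel

theorem r323 : run 110 2 42250814050458731499182406064 = 42521228423191510291213474970 := by decide +kernel

theorem r324 : run 110 2 42521228423191510291213474970 = 42792527733100273794671182210 := by decide +kernel

theorem r325 : run 110 2 42792527733100273794671182210 = 43064718424035573959613196618 := by decide +kernel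

theorem r326 : run 110 2 43064718424035573959613196618 = 43337798494240263147673047222 := by decide +kernel

theorem r327 : run 110 2 43337798494240263147673047222 = 43611764474397330663843230940 := by decide +kernel

end Pool.Agent.Helper52.PS
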