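import Pool.Agent.Helper52.PS.Run38

set_option autoImplicit false

namespace Pool.Agent.Helper52.PS

theorem r328 : run 110 2 43611764474397330663843230940 = 43886619581986436705011016252 := by decide +kernel

theorem r329 : run 110 2 43886619581986436705011016252 = 44162369188371480879649671716 := by decide +kernel

theorem r330 : run 110 2 44162369188371480879649671716 = 44439008770718524764891247084 := by decide +kernel

theorem r331 : run 110 2 44439008770718524764891247084 = 44716538324507643187668817280 := by decide +kernel

theorem r332 : run 110 2 44716538324507643187668817280 = 44994956613157901890599075936 := by decide +kernel

theorem r333 : run 110 2 44994956613157901890599075936 = 45274263585323198594089280066 := by decide +kernel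

theorem r334 : run 110 2 45274263585323198594089280066 = 45554455157855463540130874604 := by decide +kernel

theorem r335 : run 110 2 45554455157855463540130874604 = 45835536754598479848213327310 := by decide +kernel

end Pool.Agent.Helper52.PS
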