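import Pool.Agent.Helper52.PS.Run39

set_option autoImplicit false

namespace Pool.Agent.Helper52.PS

theorem r336 : run 110 2 45835536754598479848213327310 = 46117504517069059931136052678 := by decide +kernel

theorem r337 : run 110 2 46117504517069059931136052678 = 46400360383942994377313057434 := by decide +kernel

theorem r338 : run 110 2 46400360383942994377313057434 = 46684110596746058906559522296 := by decide +kernel

theorem r339 : run 110 2 46684110596746058906559522296 = 46968755376895477401416553248 := by decide +kernel

theorem r340 : run 110 2 46968755376895477401416553248 = 47254294262564559531380472574 := by decide +kernel

theorem r341 : run 110 2 47254294262564559531380472574 = 47540720336694340856544108648 := by decide +kernel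

theorem r342 : run 110 2 47540720336694340856544108648 = 47828037180043967803298794380 := by decide +kernel

theorem r343 : run 110 2 47828037180043967803298794380 = 48116247615230433078072670192 := by decide +kernel

end Pool.Agent.Helper52.PS
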