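import Pool.Agent.Helper52.PS.Run40

set_option autoImplicit false

namespace Pool.Agent.Helper52.PS

theorem r344 : run 110 2 48116247615230433078072670192 = 48405350442293259869798866160 := by decide +kernel

theorem r345 : run 110 2 48405350442293259869798866160 = 48695342793479817051488437878 := by decide +kernel

theorem r346 : run 110 2 48695342793479817051488437878 = 48986228558531088387750524214 := by decide +kernel

theorem r347 : run 110 2 48986228558531088387750524214 = 49278010807575146702901879112 := by decide +kernel

theorem r348 : run 110 2 49278010807575146702901879112 = 49570683358023135756838750578 := by decide +kernel

theorem r349 : run 110 2 49570683358023135756838750578 = 49864249088546663954319373254 := by decide +kernel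

theorem r350 : run 110 2 49864249088546663954319373254 = 50158707138365979119532581348 := by decide +kernel

theorem r351 : run 110 2 50158707138365979119532581348 = 50454057512086574829202753790 := by decide +kernel

end Pool.Agent.Helper52.PS
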