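import Pool.Agent.Helper52.PS.Run41

set_option autoImplicit false

namespace Pool.Agent.Helper52.PS

theorem r352 : run 110 2 50454057512086574829202753790 = 50750299824189626919757706604 := by decide +kernel

theorem r353 : run 110 2 50750299824189626919757706604 = 51047437409578274562758811936 := by decide +kernel

theorem r354 : run 110 2 51047437409578274562758811936 = 51345468912578957942708619584 := by decide +kernel

theorem r355 : run 110 2 51345468912578957942708619584 = 51644390214999409735062352714 := by decide +kernel

theorem r356 : run 110 2 51644390214999409735062352714 = 51944205359503153803172060476 := by decide +kernel

theorem r357 : run 110 2 51944205359503153803172060476 = 52244908446177082862332068064 := by decide +kernel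

theorem r358 : run 110 2 52244908446177082862332068064 = 52546496434043235614523418458 := by decide +kernel

theorem r359 : run 110 2 52546496434043235614523418458 = 52848977682952893431608513234 := by decide +kernel

end Pool.Agent.Helper52.PS
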