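import Pool.Agent.Helper52.PS.Run42

set_option autoImplicit false

namespace Pool.Agent.Helper52.PS

theorem r360 : run 110 2 52848977682952893431608513234 = 53152352936275840275757121702 := by decide +kernel

theorem r361 : run 110 2 53152352936275840275757121702 = 53456623003572952728902789252 := by decide +kernel

theorem r362 : run 110 2 53456623003572952728902789252 = 53761783826391649596970833768 := by decide +kernel

theorem r363 : run 110 2 53761783826391649596970833768 = 54067843974056889890902820518 := by decide +kernel

theorem r364 : run 110 2 54067843974056889890902820518 = 54374797604317967100421238400 := by decide +kernel

theorem r365 : run 110 2 54374797604317967100421238400 = 54682641223350970203933644760 := by decide +kernel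

theorem r366 : run 110 2 54682641223350970203933644760 = 54991379470853181429150763582 := by decide +kernel

theorem r367 : run 110 2 54991379470853181429150763582 = 55301017812569874828348717070 := by decide +kernel

end Pool.Agent.Helper52.PS
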