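import Pool.Agent.Helper52.PS.Run43

set_option autoImplicit false

namespace Pool.Agent.Helper52.PS

theorem r368 : run 110 2 55301017812569874828348717070 = 55611551860474485499951392990 := by decide +kernel

theorem r369 : run 110 2 55611551860474485499951392990 = 55922979701378219054525893746 := by decide +kernel

theorem r370 : run 110 2 55922979701378219054525893746 = 56235297262620763378113871170 := by decide +kernel

theorem r371 : run 110 2 56235297262620763378113871170 = 56548515931679877061212122670 := by decide +kernel

theorem r372 : run 110 2 56548515931679877061212122670 = 56862628928028847862620871434 := by decide +kernel

theorem r373 : run 110 2 56862628928028847862620871434 = 57177639928849453193572092692 := by decide +kernel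

theorem r374 : run 110 2 57177639928849453193572092692 = 57493550569923950067961772792 := by decide +kernel

theorem r375 : run 110 2 57493550569923950067961772792 = 57810358612531541042877884706 := by decide +kernel

end Pool.Agent.Helper52.PS
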