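import Pool.Agent.Helper52.PS.Run44

set_option autoImplicit false

namespace Pool.Agent.Helper52.PS

theorem r376 : run 110 2 57810358612531541042877884706 = 58128058182458347177115292786 := by decide +kernel

theorem r377 : run 110 2 58128058182458347177115292786 = 58446654558661722079194137316 := by decide +kernel

theorem r378 : run 110 2 58446654558661722079194137316 = 58766145954559752902774222330 := by decide +kernel

theorem r379 : run 110 2 58766145954559752902774222330 = 59086535084969019895204651384 := by decide +kernel

theorem r380 : run 110 2 59086535084969019895204651384 = 59407819530351452398083984432 := by decide +kernel

theorem r381 : run 110 2 59407819530351452398083984432 = 59729999555403866709762571218 := by decide +kernel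

theorem r382 : run 110 2 59729999555403866709762571218 = 60053076239961100876520662768 := by decide +kernel

theorem r383 : run 110 2 60053076239961100876520662768 = 60377049835782818331628951634 := by decide +kernel

end Pool.Agent.Helper52.PS
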