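import Pool.Agent.Helper52.PS.Run45

set_option autoImplicit false

namespace Pool.Agent.Helper52.PS

theorem r384 : run 110 2 60377049835782818331628951634 = 60701923364644757432377543384 := by decide +kernel

theorem r385 : run 110 2 60701923364644757432377543384 = 61027695197444062399526845782 := by decide +kernel

theorem r386 : run 110 2 61027695197444062399526845782 = 61354364356515682196186425282 := by decide +kernel

theorem r387 : run 110 2 61354364356515682196186425282 = 61681925494924930434010910712 := by decide +kernel

theorem r388 : run 110 2 61681925494924930434010910712 = 62010380677609953913815352556 := by decide +kernel

theorem r389 : run 110 2 62010380677609953913815352556 = 62339740455731186329207863094 := by decide +kernel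

theorem r390 : run 110 2 62339740455731186329207863094 = 62669994456498323787296416166 := by decide +kernel

theorem r391 : run 110 2 62669994456498323787296416166 = 63001145031054395295313022750 := by decide +kernel

end Pool.Agent.Helper52.PS
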