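import Pool.Agent.Helper52.PS.Run46

set_option autoImplicit false

namespace Pool.Agent.Helper52.PS

theorem r392 : run 110 2 63001145031054395295313022750 = 63333192026730188241338991766 := by decide +kernel

theorem r393 : run 110 2 63333192026730188241338991766 = 63666143366206375704399527156 := by decide +kernel

theorem r394 : run 110 2 63666143366206375704399527156 = 64000000836604176554000183804 := by decide +kernel

theorem r395 : run 110 2 64000000836604176554000183804 = 64334754422358809334639532958 := by decide +kernel

theorem r396 : run 110 2 64334754422358809334639532958 = 64670401768755327577648023492 := by decide +kernel

theorem r397 : run 110 2 64670401768755327577648023492 = 65006946505248048677676121078 := by decide +kernel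

theorem r398 : run 110 2 65006946505248048677676121078 = 65344390910294155473458014108 := by decide +kernel

theorem r399 : run 110 2 65344390910294155473458014108 = 65682733221833835096665185450 := by decide +kernel

end Pool.Agent.Helper52.PS
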