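import Pool.Agent.Helper52.PS.Run47

set_option autoImplicit false

namespace Pool.Agent.Helper52.PS

theorem r400 : run 110 2 65682733221833835096665185450 = 66021970965383975546075155014 := by decide +kernel

theorem r401 : run 110 2 66021970965383975546075155014 = 66362109528229264070117080326 := by decide +kernel

theorem r402 : run 110 2 66362109528229264070117080326 = 66703145978514521302918393796 := by decide +kernel

theorem r403 : run 110 2 66703145978514521302918393796 = 67045084157306952136374755164 := by decide +kernel

theorem r404 : run 110 2 67045084157306952136374755164 = 67387922662069664906708374604 := by decide +kernel

theorem r405 : run 110 2 67387922662069664906708374604 = 67731662442902866168650237546 := by decide +kernel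

theorem r406 : run 110 2 67731662442902866168650237546 = 68076299412910928321313322480 := by decide +kernel

theorem r407 : run 110 2 68076299412910928321313322480 = 68421838837563487041612475694 := by decide +kernel

end Pool.Agent.Helper52.PS
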