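import Pool.Agent.Helper52.PS.Run48

set_option autoImplicit false

namespace Pool.Agent.Helper52.PS

theorem r408 : run 110 2 68421838837563487041612475694 = 68768281606888922288537771620 := by decide +kernel

theorem r409 : run 110 2 68768281606888922288537771620 = 69115622696914684144489092018 := by decide +kernel

theorem r410 : run 110 2 69115622696914684144489092018 = 69463867757139666865416046820 := by decide +kernel

theorem r411 : run 110 2 69463867757139666865416046820 = 69813011308224480919529698224 := by decide +kernel

theorem r412 : run 110 2 69813011308224480919529698224 = 70163052791073128262613822320 := by decide +kernel

theorem r413 : run 110 2 70163052791073128262613822320 = 70513996800041213021818920568 := by decide +kernel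

theorem r414 : run 110 2 70513996800041213021818920568 = 70865841446053339079811452588 := by decide +kernel

theorem r415 : run 110 2 70865841446053339079811452588 = 71218578777481946771164396298 := by decide +kernel

end Pool.Agent.Helper52.PS
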