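import Pool.Agent.Helper52.PS.Run49

set_option autoImplicit false

namespace Pool.Agent.Helper52.PS

theorem r416 : run 110 2 71218578777481946771164396298 = 71572217377543911111423569402 := by decide +kernel

theorem r417 : run 110 2 71572217377543911111423569402 = 71926755658251989083457969430 := by decide +kernel

theorem r418 : run 110 2 71926755658251989083457969430 = 72282194934129224833612224366 := by decide +kernel

theorem r419 : run 110 2 72282194934129224833612224366 = 72638535426682914237243278990 := by decide +kernel

theorem r420 : run 110 2 72638535426682914237243278990 = 72995778679999211129915899712 := by decide +kernel

theorem r421 : run 110 2 72995778679999211129915899712 = 73353925561157840615910716716 := by decide +kernel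

theorem r422 : run 110 2 73353925561157840615910716716 = 73712973150108120903183524758 := by decide +kernel

theorem r423 : run 110 2 73712973150108120903183524758 = 74072920786791231607393490508 := by decide +kernel

end Pool.Agent.Helper52.PS
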