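import Pool.Agent.Helper52.PS.Run50

set_option autoImplicit false

namespace Pool.Agent.Helper52.PS

theorem r424 : run 110 2 74072920786791231607393490508 = 74433770613843109144974578226 := by decide +kernel

theorem r425 : run 110 2 74433770613843109144974578226 = 74795526100853794949617909918 := by decide +kernel

theorem r426 : run 110 2 74795526100853794949617909918 = 75158175957012481653576249520 := by decide +kernel

theorem r427 : run 110 2 75158175957012481653576249520 = 75521726065449049611612643592 := by decide +kernel

theorem r428 : run 110 2 75521726065449049611612643592 = 75886181994889207853216341800 := by decide +kernel

theorem r429 : run 110 2 75886181994889207853216341800 = 76251541591230292356419702812 := by decide +kernel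

theorem r430 : run 110 2 76251541591230292356419702812 = 76617800512528258484679083162 := by decide +kernel

theorem r431 : run 110 2 76617800512528258484679083162 = 76984967631208764418929574584 := by decide +kernel

end Pool.Agent.Helper52.PS
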