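import Pool.Agent.Helper52.PS.Run51

set_option autoImplicit false

namespace Pool.Agent.Helper52.PS

theorem r432 : run 110 2 76984967631208764418929574584 = 77353041503731332764620388482 := by decide +kernel

theorem r433 : run 110 2 77353041503731332764620388482 = 77722022659194610330511422484 := by decide +kernel

theorem r434 : run 110 2 77722022659194610330511422484 = 78091906235364383558927966932 := by decide +kernel

theorem r435 : run 110 2 78091906235364383558927966932 = 78462692177217361073455537026 := by decide +kernel

theorem r436 : run 110 2 78462692177217361073455537026 = 78834380081558090169066213066 := by decide +kernel

theorem r437 : run 110 2 78834380081558090169066213066 = 79206968758342457478436619668 := by decide +kernel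

theorem r438 : run 110 2 79206968758342457478436619668 = 79580465224483238360473648988 := by decide +kernel

theorem r439 : run 110 2 79580465224483238360473648988 = 79954870204084380555769248232 := by decide +kernel

end Pool.Agent.Helper52.PS
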