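import Pool.Agent.Helper52.PS.Run52

set_option autoImplicit false

namespace Pool.Agent.Helper52.PS

theorem r440 : run 110 2 79954870204084380555769248232 = 80330176586291398169330133494 := by decide +kernel

theorem r441 : run 110 2 80330176586291398169330133494 = 80706383931139199347051912646 := by decide +kernel

theorem r442 : run 110 2 80706383931139199347051912646 = 81083494402025877738305263288 := by decide +kernel

theorem r443 : run 110 2 81083494402025877738305263288 = 81461511786616642700802412658 := by decide +kernel

theorem r444 : run 110 2 81461511786616642700802412658 = 81840430875357988576543768896 := by decide +kernel

theorem r445 : run 110 2 81840430875357988576543768896 = 82220250102543105618328793066 := by decide +kernel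

theorem r446 : run 110 2 82220250102543105618328793066 = 82600969021665986461103384596 := by decide +kernel

theorem r447 : run 110 2 82600969021665986461103384596 = 82982592975693646226868215632 := by decide +kernel

end Pool.Agent.Helper52.PS
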