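import Pool.Agent.Helper52.PS.Run53

set_option autoImplicit false

namespace Pool.Agent.Helper52.PS

theorem r448 : run 110 2 82982592975693646226868215632 = 83365122384288386696903710144 := by decide +kernel

theorem r449 : run 110 2 83365122384288386696903710144 = 83748558601708511516959478080 := by decide +kernel

theorem r450 : run 110 2 83748558601708511516959478080 = 84132898418791946074496714080 := by decide +kernel

theorem r451 : run 110 2 84132898418791946074496714080 = 84518145906239936643151692154 := by decide +kernel

theorem r452 : run 110 2 84518145906239936643151692154 = 84904299301542873363287094052 := by decide +kernel

theorem r453 : run 110 2 84904299301542873363287094052 = 85291349854956529587691414240 := by decide +kernel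

theorem r454 : run 110 2 85291349854956529587691414240 = 85679303427898931838851948252 := by decide +kernel

theorem r455 : run 110 2 85679303427898931838851948252 = 86068164087794394736504003344 := by decide +kernel

end Pool.Agent.Helper52.PS
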