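import Pool.Agent.Helper52.PS.Run54

set_option autoImplicit false

namespace Pool.Agent.Helper52.PS

theorem r456 : run 110 2 86068164087794394736504003344 = 86457932454856703900775519174 := by decide +kernel

theorem r457 : run 110 2 86457932454856703900775519174 = 86848605843820211017179613716 := by decide +kernel

theorem r458 : run 110 2 86848605843820211017179613716 = 87240185672354465440969917380 := by decide +kernel

theorem r459 : run 110 2 87240185672354465440969917380 = 87632674383851979145279815402 := by decide +kernel

theorem r460 : run 110 2 87632674383851979145279815402 = 88026069092050326539727894858 := by decide +kernel

theorem r461 : run 110 2 88026069092050326539727894858 = 88420372259062920325585253062 := by decide +kernel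

theorem r462 : run 110 2 88420372259062920325585253062 = 88815582943804634498988567494 := by decide +kernel

theorem r463 : run 110 2 88815582943804634498988567494 = 89211698264907893333882086516 := by decide +kernel

end Pool.Agent.Helper52.PS
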