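import Pool.Agent.Helper52.PS.Run55

set_option autoImplicit false

namespace Pool.Agent.Helper52.PS

theorem r464 : run 110 2 89211698264907893333882086516 = 89608722934208637846784335476 := by decide +kernel

theorem r465 : run 110 2 89608722934208637846784335476 = 90006653483724048753234285450 := by decide +kernel

theorem r466 : run 110 2 90006653483724048753234285450 = 90405484923034519250590485154 := by decide +kernel

theorem r467 : run 110 2 90405484923034519250590485154 = 90805223443679809847213916728 := by decide +kernel

theorem r468 : run 110 2 90805223443679809847213916728 = 91205866398299944400341385068 := by decide +kernel

theorem r469 : run 110 2 91205866398299944400341385068 = 91607422083224620356227758806 := by decide +kernel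

theorem r470 : run 110 2 91607422083224620356227758806 = 92009879758264379817770527520 := by decide +kernel

theorem r471 : run 110 2 92009879758264379817770527520 = 92413236447003739848785420724 := by decide +kernel

end Pool.Agent.Helper52.PS
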