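import Pool.Agent.Helper52.PS.Run56

set_option autoImplicit false

namespace Pool.Agent.Helper52.PS

theorem r472 : run 110 2 92413236447003739848785420724 = 92817501513121006002571713828 := by decide +kernel

theorem r473 : run 110 2 92817501513121006002571713828 = 93222676340714207158613432482 := by decide +kernel

theorem r474 : run 110 2 93222676340714207158613432482 = 93628757994113615049743765674 := by decide +kernel

theorem r475 : run 110 2 93628757994113615049743765674 = 94035744038314672020349601364 := by decide +kernel

theorem r476 : run 110 2 94035744038314672020349601364 = 94443637208952410502303908266 := by decide +kernel

theorem r477 : run 110 2 94443637208952410502303908266 = 94852433241004267503946348144 := by decide +kernel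

theorem r478 : run 110 2 94852433241004267503946348144 = 95262142096594185390682046296 := by decide +kernel

theorem r479 : run 110 2 95262142096594185390682046296 = 95672764780594586428926080978 := by decide +kernel

end Pool.Agent.Helper52.PS
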