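import Pool.Agent.Helper52.PS.Run57

set_option autoImplicit false

namespace Pool.Agent.Helper52.PS

theorem r480 : run 110 2 95672764780594586428926080978 = 96084296135549605440705524616 := by decide +kernel

theorem r481 : run 110 2 96084296135549605440705524616 = 96496734021169681421083586228 := by decide +kernel

theorem r482 : run 110 2 96496734021169681421083586228 = 96910082425668129886763706614 := by decide +kernel

theorem r483 : run 110 2 96910082425668129886763706614 = 97324343692688360567378226996 := by decide +kernel

theorem r484 : run 110 2 97324343692688360567378226996 = 97739516320247246638105159176 := by decide +kernel

theorem r485 : run 110 2 97739516320247246638105159176 = 98155595797632288077976083804 := by decide +kernel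

theorem r486 : run 110 2 98155595797632288077976083804 = 98572579268577284602094310890 := by decide +kernel

theorem r487 : run 110 2 98572579268577284602094310890 = 98990474304837359771973982620 := by decide +kernel

end Pool.Agent.Helper52.PS
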