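import Pool.Agent.Helper52.PS.Run58

set_option autoImplicit false

namespace Pool.Agent.Helper52.PS

theorem r488 : run 110 2 98990474304837359771973982620 = 99409279246652529218114146328 := by decide +kernel

theorem r489 : run 110 2 99409279246652529218114146328 = 99828992428232488662448574218 := by decide +kernel

theorem r490 : run 110 2 99828992428232488662448574218 = 100249611229395359808656328442 := by decide +kernel

theorem r491 : run 110 2 100249611229395359808656328442 = 100671141443763106290575148014 := by decide +kernel

theorem r492 : run 110 2 100671141443763106290575148014 = 101093586987624868714935535744 := by decide +kernel

theorem r493 : run 110 2 101093586987624868714935535744 = 101516946513251437004089756250 := by decide +kernel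

theorem r494 : run 110 2 101516946513251437004089756250 = 101941217448756972299846960094 := by decide +kernel

theorem r495 : run 110 2 101941217448756972299846960094 = 102366397607742371754337896774 := by decide +kernel

end Pool.Agent.Helper52.PS
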