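import Pool.Agent.Helper52.PS.Run59

set_option autoImplicit false

namespace Pool.Agent.Helper52.PS

theorem r496 : run 110 2 102366397607742371754337896774 = 102792492635439931935390418058 := by decide +kernel

theorem r497 : run 110 2 102792492635439931935390418058 = 103219498672893587276139561086 := by decide +kernel

theorem r498 : run 110 2 103219498672893587276139561086 = 103647414179764178844414590886 := by decide +kernel

theorem r499 : run 110 2 103647414179764178844414590886 = 104076242902076633826617130700 := by decide +kernel

theorem r500 : run 110 2 104076242902076633826617130700 = 104505981821465001707828591152 := by decide +kernel

theorem r501 : run 110 2 104505981821465001707828591152 = 104936630941534414006938923736 := by decide +kernel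

theorem r502 : run 110 2 104936630941534414006938923736 = 105368183918683883512561282894 := by decide +kernel

theorem r503 : run 110 2 105368183918683883512561282894 = 105800647586433979295391149706 := by decide +kernel

end Pool.Agent.Helper52.PS
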