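import Pool.Agent.Helper52.PS.Run60

set_option autoImplicit false

namespace Pool.Agent.Helper52.PS

theorem r504 : run 110 2 105800647586433979295391149706 = 106234020811599096216431208806 := by decide +kernel

theorem r505 : run 110 2 106234020811599096216431208806 = 106668308873128706591027718288 := by decide +kernel

theorem r506 : run 110 2 106668308873128706591027718288 = 107103507136852570855635232922 := by decide +kernel

theorem r507 : run 110 2 107103507136852570855635232922 = 107539618057806131911725214294 := by decide +kernel

theorem r508 : run 110 2 107539618057806131911725214294 = 107976641720728557406805862748 := by decide +kernel

theorem r509 : run 110 2 107976641720728557406805862748 = 108414575879427578148906624142 := by decide +kernel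

theorem r510 : run 110 2 108414575879427578148906624142 = 108853420628873977173667225744 := by decide +kernel

theorem r511 : run 110 2 108853420628873977173667225744 = 109293177815452403815368613294 := by decide +kernel

end Pool.Agent.Helper52.PS
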