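import Pool.Agent.Helper52.PS.Run61

set_option autoImplicit false

namespace Pool.Agent.Helper52.PS

theorem r512 : run 110 2 109293177815452403815368613294 = 109733846162665394446984781152 := by decide +kernel

theorem r513 : run 110 2 109733846162665394446984781152 = 110175429515989177971179480782 := by decide +kernel

theorem r514 : run 110 2 110175429515989177971179480782 = 110617932776300541596179049826 := by decide +kernel

theorem r515 : run 110 2 110617932776300541596179049826 = 111061351640401597131179092224 := by decide +kernel

theorem r516 : run 110 2 111061351640401597131179092224 = 111505681530540386377116330518 := by decide +kernel

theorem r517 : run 110 2 111505681530540386377116330518 = 111950923727807481644134589472 := by decide +kernel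

theorem r518 : run 110 2 111950923727807481644134589472 = 112397071656265131630984306244 := by decide +kernel

theorem r519 : run 110 2 112397071656265131630984306244 = 112844132669578270234379150178 := by decide +kernel

end Pool.Agent.Helper52.PS
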