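import Pool.Agent.Helper52.PS.Run62

set_option autoImplicit false

namespace Pool.Agent.Helper52.PS

theorem r520 : run 110 2 112844132669578270234379150178 = 113292110600091755764415309012 := by decide +kernel

theorem r521 : run 110 2 113292110600091755764415309012 = 113741007030975668492434762542 := by decide +kernel

theorem r522 : run 110 2 113741007030975668492434762542 = 114190813256954324478192067546 := by decide +kernel

theorem r523 : run 110 2 114190813256954324478192067546 = 114641531361846649019694901332 := by decide +kernel

theorem r524 : run 110 2 114641531361846649019694901332 = 115093163117115408037135297088 := by decide +kernel

theorem r525 : run 110 2 115093163117115408037135297088 = 115545709881943591373087467520 := by decide +kernel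

theorem r526 : run 110 2 115545709881943591373087467520 = 115999167427264249553662519002 := by decide +kernel

theorem r527 : run 110 2 115999167427264249553662519002 = 116453539982808050039243140156 := by decide +kernel

end Pool.Agent.Helper52.PS
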