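import Pool.Agent.Helper52.PS.Run63

set_option autoImplicit false

namespace Pool.Agent.Helper52.PS

theorem r528 : run 110 2 116453539982808050039243140156 = 116908832867174719219062254666 := by decide +kernel

theorem r529 : run 110 2 116908832867174719219062254666 = 117365035554471832080033736470 := by decide +kernel

theorem r530 : run 110 2 117365035554471832080033736470 = 117822152205287416914165312776 := by decide +kernel

theorem r531 : run 110 2 117822152205287416914165312776 = 118280181149413701148961597878 := by decide +kernel

theorem r532 : run 110 2 118280181149413701148961597878 = 118739122192815909607990799540 := by decide +kernel

theorem r533 : run 110 2 118739122192815909607990799540 = 119198975287096108889541863398 := by decide +kernel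

theorem r534 : run 110 2 119198975287096108889541863398 = 119659738831930570691572017590 := by decide +kernel

theorem r535 : run 110 2 119659738831930570691572017590 = 120121414546395627147468858538 := by decide +kernel

end Pool.Agent.Helper52.PS
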