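import Pool.Agent.Helper52.PS.Run64

set_option autoImplicit false

namespace Pool.Agent.Helper52.PS

theorem r536 : run 110 2 120121414546395627147468858538 = 120584003684225860520351999844 := by decide +kernel

theorem r537 : run 110 2 120584003684225860520351999844 = 121047508231311111040785279412 := by decide +kernel

theorem r538 : run 110 2 121047508231311111040785279412 = 121511926725513286634200968104 := by decide +kernel

theorem r539 : run 110 2 121511926725513286634200968104 = 121977259437808347390148143660 := by decide +kernel

theorem r540 : run 110 2 121977259437808347390148143660 = 122443505972168319418612101122 := by decide +kernel

theorem r541 : run 110 2 122443505972168319418612101122 = 122910668933408799106384555290 := by decide +kernel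

theorem r542 : run 110 2 122910668933408799106384555290 = 123378741990807968279135792044 := by decide +kernel

theorem r543 : run 110 2 123378741990807968279135792044 = 123847727573572563071048084546 := by decide +kernel

end Pool.Agent.Helper52.PS
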