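import Pool.Agent.Helper52.PS.Run65

set_option autoImplicit false

namespace Pool.Agent.Helper52.PS

theorem r544 : run 110 2 123847727573572563071048084546 = 124317627324253750726023162844 := by decide +kernel

theorem r545 : run 110 2 124317627324253750726023162844 = 124788441243069392876303511572 := by decide +kernel

theorem r546 : run 110 2 124788441243069392876303511572 = 125260172007231012851435122288 := by decide +kernel

theorem r547 : run 110 2 125260172007231012851435122288 = 125732815764722029166551561540 := by decide +kernel

theorem r548 : run 110 2 125732815764722029166551561540 = 126206377701966022741283485656 := by decide +kernel

theorem r549 : run 110 2 126206377701966022741283485656 = 126680856835004725060983225322 := by decide +kernel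

theorem r550 : run 110 2 126680856835004725060983225322 = 127156250345057647329508735918 := by decide +kernel

theorem r551 : run 110 2 127156250345057647329508735918 = 127632556724073062225230037272 := by decide +kernel

end Pool.Agent.Helper52.PS
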