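import Pool.Agent.Helper52.PS.Run66

set_option autoImplicit false

namespace Pool.Agent.Helper52.PS

theorem r552 : run 110 2 127632556724073062225230037272 = 128109783276167863514079805692 := by decide +kernel

theorem r553 : run 110 2 128109783276167863514079805692 = 128587920117266616254368414988 := by decide +kernel

theorem r554 : run 110 2 128587920117266616254368414988 = 129066966806661697606113115972 := by decide +kernel

theorem r555 : run 110 2 129066966806661697606113115972 = 129546931567653559370115252888 := by decide +kernel

theorem r556 : run 110 2 129546931567653559370115252888 = 130027808831483841414218432744 := by decide +kernel

theorem r557 : run 110 2 130027808831483841414218432744 = 130509600591535810794951049270 := by decide +kernel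

theorem r558 : run 110 2 130509600591535810794951049270 = 130992311490041150422541946754 := by decide +kernel

theorem r559 : run 110 2 130992311490041150422541946754 = 131475945703649413718652229158 := by decide +kernel

end Pool.Agent.Helper52.PS
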