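import Pool.Agent.Helper52.PS.Run67

set_option autoImplicit false

namespace Pool.Agent.Helper52.PS

theorem r560 : run 110 2 131475945703649413718652229158 = 131960498309111056425380470204 := by decide +kernel

theorem r561 : run 110 2 131960498309111056425380470204 = 132445967608732837469890517968 := by decide +kernel

theorem r562 : run 110 2 132445967608732837469890517968 = 132932349510038043414418644082 := by decide +kernel

theorem r563 : run 110 2 132932349510038043414418644082 = 133419644618451764607278325752 := by decide +kernel

theorem r564 : run 110 2 133419644618451764607278325752 = 133907856390997873619742679624 := by decide +kernel

theorem r565 : run 110 2 133907856390997873619742679624 = 134396984748480571004233098160 := by decide +kernel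

theorem r566 : run 110 2 134396984748480571004233098160 = 134887030829878779881143037436 := by decide +kernel

theorem r567 : run 110 2 134887030829878779881143037436 = 135377997520277797476170346512 := by decide +kernel

end Pool.Agent.Helper52.PS
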