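import Pool.Agent.Helper52.PS.Run68

set_option autoImplicit false

namespace Pool.Agent.Helper52.PS

theorem r568 : run 110 2 135377997520277797476170346512 = 135869881051231525836037682460 := by decide +kernel

theorem r569 : run 110 2 135869881051231525836037682460 = 136362682357086017058243198354 := by decide +kernel

theorem r570 : run 110 2 136362682357086017058243198354 = 136856403388404875910483641310 := by decide +kernel

theorem r571 : run 110 2 136856403388404875910483641310 = 137351039764969090416389475412 := by decide +kernel

theorem r572 : run 110 2 137351039764969090416389475412 = 137846597050534647413962247234 := by decide +kernel

theorem r573 : run 110 2 137846597050534647413962247234 = 138343073667393207094449068064 := by decide +kernel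

theorem r574 : run 110 2 138343073667393207094449068064 = 138840471692850363790209621350 := by decide +kernel

theorem r575 : run 110 2 138840471692850363790209621350 = 139338788481416824044304490536 := by decide +kernel

end Pool.Agent.Helper52.PS
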