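import Pool.Agent.Helper52.PS.Run69

set_option autoImplicit false

namespace Pool.Agent.Helper52.PS

theorem r576 : run 110 2 139338788481416824044304490536 = 139838019700424832523138507110 := by decide +kernel

theorem r577 : run 110 2 139838019700424832523138507110 = 140338169827991524017181288768 := by decide +kernel

theorem r578 : run 110 2 140338169827991524017181288768 = 140839234652644949835989625080 := by decide +kernel

theorem r579 : run 110 2 140839234652644949835989625080 = 141341213362993520161183460830 := by decide +kernel

theorem r580 : run 110 2 141341213362993520161183460830 = 141844112354135758014770262604 := by decide +kernel

theorem r581 : run 110 2 141844112354135758014770262604 = 142347933116982690529360151034 := by decide +kernel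

theorem r582 : run 110 2 142347933116982690529360151034 = 142852677229815740580247554486 := by decide +kernel

theorem r583 : run 110 2 142852677229815740580247554486 = 143358342200045636795798294618 := by decide +kernel

end Pool.Agent.Helper52.PS
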