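import Pool.Agent.Helper52.PS.Run70

set_option autoImplicit false

namespace Pool.Agent.Helper52.PS

theorem r584 : run 110 2 143358342200045636795798294618 = 143864926480170807973308944702 := by decide +kernel

theorem r585 : run 110 2 143864926480170807973308944702 = 144372421007736209634545242752 := by decide +kernel

theorem r586 : run 110 2 144372421007736209634545242752 = 144880832528339761201064565188 := by decide +kernel

theorem r587 : run 110 2 144880832528339761201064565188 = 145390166177218256140596258310 := by decide +kernel

theorem r588 : run 110 2 145390166177218256140596258310 = 145900420957842190489718187544 := by decide +kernel

theorem r589 : run 110 2 145900420957842190489718187544 = 146411587923237821442073897858 := by decide +kernel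

theorem r590 : run 110 2 146411587923237821442073897858 = 146923678287829277148091839920 := by decide +kernel

theorem r591 : run 110 2 146923678287829277148091839920 = 147436694008489705457441358424 := by decide +kernel

end Pool.Agent.Helper52.PS
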