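import Pool.Agent.Helper52.PS.Run71

set_option autoImplicit false

namespace Pool.Agent.Helper52.PS

theorem r592 : run 110 2 147436694008489705457441358424 = 147950632938824353092145809710 := by decide +kernel

theorem r593 : run 110 2 147950632938824353092145809710 = 148465491241742693637720134568 := by decide +kernel

theorem r594 : run 110 2 148465491241742693637720134568 = 148981268963712305128679151850 := by decide +kernel

theorem r595 : run 110 2 148981268963712305128679151850 = 149497964079771805786382786570 := by decide +kernel

theorem r596 : run 110 2 149497964079771805786382786570 = 150015581123602053748837294730 := by decide +kernel

theorem r597 : run 110 2 150015581123602053748837294730 = 150534114842289449092989020760 := by decide +kernel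

theorem r598 : run 110 2 150534114842289449092989020760 = 151053566882301038936053985214 := by decide +kernel

theorem r599 : run 110 2 151053566882301038936053985214 = 151573934941844238989136687876 := by decide +kernel

end Pool.Agent.Helper52.PS
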