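import Pool.Agent.Helper52.PS.Run72

set_option autoImplicit false

namespace Pool.Agent.Helper52.PS

theorem r600 : run 110 2 151573934941844238989136687876 = 152095225747317560497865146422 := by decide +kernel

theorem r601 : run 110 2 152095225747317560497865146422 = 152617440317506170869187250312 := by decide +kernel

theorem r602 : run 110 2 152617440317506170869187250312 = 153140576971559728682920990936 := by decide +kernel

theorem r603 : run 110 2 153140576971559728682920990936 = 153664641126849218505123439304 := by decide +kernel

theorem r604 : run 110 2 153664641126849218505123439304 = 154189624787366921062602105900 := by decide +kernel

theorem r605 : run 110 2 154189624787366921062602105900 = 154715528219192820711812083072 := by decide +kernel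

theorem r606 : run 110 2 154715528219192820711812083072 = 155242352208672863821407549002 := by decide +kernel

theorem r607 : run 52 1 155242352208672863821407549002 = 155367008371504292728323594490 := by decide +kernel

end Pool.Agent.Helper52.PS
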